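import Mathlib

/-!
# Augmentation-injective matrices over group rings, along a locally indicable subgroup

A version of a theorem of Howie and Schneebeli, Gersten, and Strebel: let `w` be a finitely supported
row vector over `ℤ[G]` whose entries `w i` have their supports in right cosets of a locally indicable
subgroup `K`, and let `T` be a matrix over `ℤ[G]` whose augmentation is injective. If `w T = 0` then
`w = 0`.
-/

set_option autoImplicit false

open scoped BigOperators

namespace Pool.Agent.FoxAsph

/-- A subgroup `K` is locally indicable: every nontrivial finitely generated subgroup of `K` has the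
infinite cyclic group as a homomorphic image. -/
def LocallyIndicable {G : Type} [Group G] (K : Subgroup G) : Prop :=
  ∀ L : Subgroup G, L ≤ K → L.FG → L ≠ ⊥ → ∃ φ : L →* Multiplicative ℤ, Function.Surjective φ

/-- sum of coefficients -/
def aug {G : Type} (f : G →₀ ℤ) : ℤ := f.sum fun _ n => n

section

variable {G : Type} [Group G]

/-- `p = m x` with `m` in `L` of level `k` -/
def Lev (L : Subgroup G) (φ : L →* Multiplicative ℤ) (k : ℤ) (x p : G) : Prop :=
  ∃ m : L, φ m = Multiplicative.ofAdd k ∧ p = m * x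

theorem lev_shift (L : Subgroup G) (φ : L →* Multiplicative ℤ) (k l : ℤ) (x p : G) (m : L)
    (hm : φ m = Multiplicative.ofAdd l) : Lev L φ k x (m * p) ↔ Lev L φ (k - l) x p := by
  constructor
  · rintro ⟨m', h1, h2⟩
    refine ⟨m⁻¹ * m', ?_, ?_⟩
    · rw [map_mul, map_inv, hm, h1, ← ofAdd_neg, ← ofAdd_add]
      congr 1; ring
    · rw [Subgroup.coe_mul, Subgroup.coe_inv, mul_assoc, ← h2]; group
  · rintro ⟨m', h1, h2⟩
    refine ⟨m * m', ?_, ?_⟩
    · rw [map_mul, hm, h1, ← ofAdd_add]
      congr 1; ring
    · rw [Subgroup.coe_mul, mul_assoc, ← h2]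

theorem lev_unique (L : Subgroup G) (φ : L →* Multiplicative ℤ) (k l : ℤ) (x p : G)
    (h1 : Lev L φ k x p) (h2 : Lev L φ l x p) : k = l := by
  obtain ⟨m, hm, h⟩ := h1
  obtain ⟨m', hm', h'⟩ := h2
  have : m = m' := by
    apply Subtype.ext
    exact mul_right_cancel (h.symm.trans h')
  rw [this, hm'] at hm
  exact (Multiplicative.ofAdd.injective hm).symm

/-- the setoid of cosets of the kernel of `φ` -/
def kerSetoid (L : Subgroup G) (φ : L →* Multiplicative ℤ) : Setoid G where
  r p q := Lev L φ 0 p q
  iseqv := by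
    refine ⟨fun p => ⟨1, by simp, by simp⟩, ?_, ?_⟩
    · rintro p q ⟨m, hm, h⟩
      refine ⟨m⁻¹, by rw [map_inv, hm]; simp, ?_⟩
      rw [h, Subgroup.coe_inv]; group
    · rintro p q r ⟨m, hm, h⟩ ⟨m', hm', h'⟩
      refine ⟨m' * m, by rw [map_mul, hm, hm']; simp, ?_⟩
      rw [h', h, Subgroup.coe_mul]; group

variable {R C : Type} (T : R → C → (G →₀ ℤ)) (h : R → G) (L : Subgroup G)
  (φ : L →* Multiplicative ℤ)

open Classical in
/-- the equation at column `j` and coset of `p` for the augmented matrix -/
noncomputable def colEq (a : (R × ℤ) →₀ ℤ) (j : C) (p : G) : ℤ :=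
  a.sum fun x n => n * (T x.1 j).sum fun g m => if Lev L φ x.2 (h x.1 * g) p then m else 0

theorem colEq_sub (a b : (R × ℤ) →₀ ℤ) (j : C) (p : G) :
    colEq T h L φ (a - b) j p = colEq T h L φ a j p - colEq T h L φ b j p := by
  unfold colEq
  rw [Finsupp.sum_sub_index]
  intro x n m
  ring

/-- shift of levels -/
noncomputable def sh (a : (R × ℤ) →₀ ℤ) : (R × ℤ) →₀ ℤ := a.mapDomain fun x => (x.1, x.2 + 1)

theorem sh_apply (a : (R × ℤ) →₀ ℤ) (i : R) (k : ℤ) : sh a (i, k) = a (i, k - 1) := by
  unfold sh
  have hinj : Function.Injective fun x : R × ℤ => (x.1, x.2 + 1) := by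
    rintro ⟨a, b⟩ ⟨c, d⟩ hh
    simp only [Prod.mk.injEq, add_left_inj] at hh
    rw [hh.1, hh.2]
  have := Finsupp.mapDomain_apply hinj a (i, k - 1)
  simpa using this

theorem colEq_sh (a : (R × ℤ) →₀ ℤ) (j : C) (p : G) (t : L) (ht : φ t = Multiplicative.ofAdd 1) :
    colEq T h L φ (sh a) j p = colEq T h L φ a j ((t⁻¹ : L) * p) := by
  classical
  unfold colEq sh
  rw [Finsupp.sum_mapDomain_index]
  · apply Finsupp.sum_congr
    intro x _
    congr 1
    apply Finsupp.sum_congr
    intro g _
    have : Lev L φ x.2 (h x.1 * g) ((t⁻¹ : L) * p) ↔ Lev L φ (x.2 + 1) (h x.1 * g) p := by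
      rw [lev_shift L φ x.2 (-1) _ p t⁻¹ (by rw [map_inv, ht]; rfl)]
      rw [sub_neg_eq_add]
    simp only [this]
  · intro x; simp
  · intro x n m; ring

theorem colEq_iter (a : (R × ℤ) →₀ ℤ) (j : C) (t : L)
    (hinv : ∀ p, colEq T h L φ a j ((t⁻¹ : L) * p) = colEq T h L φ a j p) (p : G) (N : ℕ) :
    colEq T h L φ a j (((t⁻¹ : L) ^ N : L) * p) = colEq T h L φ a j p := by
  induction N with
  | zero => simp
  | succ N ih =>
    rw [pow_succ', Subgroup.coe_mul, mul_assoc, hinv, ih]

theorem colEq_zero_of_inv (a : (R × ℤ) →₀ ℤ) (j : C) (t : L) (ht : φ t = Multiplicative.ofAdd 1)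
    (hinv : ∀ p, colEq T h L φ a j ((t⁻¹ : L) * p) = colEq T h L φ a j p) (p : G) :
    colEq T h L φ a j p = 0 := by
  classical
  by_contra hne
  -- for every N some term is active
  have key : ∀ N : ℕ, ∃ y : (Σ _ : R × ℤ, G), y ∈ a.support.sigma (fun x => (T x.1 j).support) ∧
      Lev L φ (y.1.2 + N) (h y.1.1 * y.2) p := by
    intro N
    have h1 := colEq_iter T h L φ a j t hinv p N
    rw [← h1] at hne
    unfold colEq at hne
    obtain ⟨x, hx, hx'⟩ := Finset.exists_ne_zero_of_sum_ne_zero hne
    have hx2 : ((T x.1 j).sum fun g m =>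
        if Lev L φ x.2 (h x.1 * g) (((t⁻¹ : L) ^ N : L) * p) then m else 0) ≠ 0 := by
      intro h0; apply hx'; simp only [h0, mul_zero]
    obtain ⟨g, hg, hg'⟩ := Finset.exists_ne_zero_of_sum_ne_zero hx2
    have hlev : Lev L φ x.2 (h x.1 * g) (((t⁻¹ : L) ^ N : L) * p) := by
      by_contra hh
      exact hg' (if_neg hh)
    refine ⟨⟨x, g⟩, ?_, ?_⟩
    · rw [Finset.mem_sigma]; exact ⟨hx, hg⟩
    · have hN : φ ((t⁻¹ : L) ^ N) = Multiplicative.ofAdd (-(N : ℤ)) := by
        rw [map_pow, map_inv, ht, ← ofAdd_neg, ← ofAdd_nsmul]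
        simp
      rw [lev_shift L φ x.2 (-(N : ℤ)) _ p _ hN, sub_neg_eq_add] at hlev
      exact hlev
  choose y hy1 hy2 using key
  obtain ⟨N, N', hNN, heq⟩ := Finite.exists_ne_map_eq_of_infinite
    (fun N : ℕ => (⟨y N, hy1 N⟩ : {y // y ∈ a.support.sigma (fun x => (T x.1 j).support)}))
  have heq' : y N = y N' := congrArg Subtype.val heq
  have h1 := hy2 N
  have h2 := hy2 N'
  rw [heq'] at h1
  have := lev_unique L φ _ _ _ _ h1 h2
  apply hNN
  have h3 : (N : ℤ) = N' := by linarith
  exact_mod_cast h3

theorem sum_aug_of_colEq (a : (R × ℤ) →₀ ℤ) (j : C) (t : L) (ht : φ t = Multiplicative.ofAdd 1)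
    (hcol : ∀ p, colEq T h L φ a j p = 0) : a.sum (fun x n => n * aug (T x.1 j)) = 0 := by
  classical
  -- level k from x to p iff the classes agree
  have hlev : ∀ (k : ℤ) (x p : G), Lev L φ k x p ↔
      (Quotient.mk (kerSetoid L φ) (((t ^ k : L) : G) * x)) = Quotient.mk (kerSetoid L φ) p := by
    intro k x p
    rw [Quotient.eq]
    show _ ↔ Lev L φ 0 _ _
    have htk : φ (t ^ k) = Multiplicative.ofAdd k := by
      rw [map_zpow, ht, ← ofAdd_zsmul]; simp
    constructor
    · rintro ⟨m, hm, hp⟩
      refine ⟨m * (t ^ k)⁻¹, ?_, ?_⟩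
      · rw [map_mul, map_inv, hm, htk]; simp
      · rw [hp, Subgroup.coe_mul, Subgroup.coe_inv]; group
    · rintro ⟨m, hm, hp⟩
      refine ⟨m * t ^ k, ?_, ?_⟩
      · rw [map_mul, hm, htk]; simp
      · rw [hp, Subgroup.coe_mul, mul_assoc]
  let s : Finset (Σ _ : R × ℤ, G) := a.support.sigma (fun x => (T x.1 j).support)
  let κ : (Σ _ : R × ℤ, G) → Quotient (kerSetoid L φ) := fun y =>
    Quotient.mk (kerSetoid L φ) (((t ^ y.1.2 : L) : G) * (h y.1.1 * y.2))
  have h1 : a.sum (fun x n => n * aug (T x.1 j)) = ∑ y ∈ s, a y.1 * (T y.1.1 j) y.2 := by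
    rw [Finset.sum_sigma]
    unfold Finsupp.sum aug
    apply Finset.sum_congr rfl
    intro x _
    exact Finset.mul_sum _ _ _
  rw [h1, ← Finset.sum_fiberwise_of_maps_to (s := s) (t := s.image κ) (g := κ)
    (fun y hy => Finset.mem_image_of_mem κ hy)]
  apply Finset.sum_eq_zero
  intro u hu
  obtain ⟨p, rfl⟩ := Quotient.exists_rep u
  rw [← hcol p]
  unfold colEq
  rw [Finset.sum_filter, Finset.sum_sigma]
  unfold Finsupp.sum
  apply Finset.sum_congr rfl
  intro x _
  refine Eq.trans ?_ (Finset.mul_sum _ _ _).symm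
  apply Finset.sum_congr rfl
  intro g _
  show (if κ ⟨x, g⟩ = Quotient.mk (kerSetoid L φ) p then a x * (T x.1 j) g else 0) =
    a x * (if Lev L φ x.2 (h x.1 * g) p then (T x.1 j) g else 0)
  have h2 := hlev x.2 (h x.1 * g) p
  by_cases hl : Lev L φ x.2 (h x.1 * g) p
  · rw [if_pos hl, if_pos]
    exact h2.1 hl
  · rw [if_neg hl, if_neg, mul_zero]
    intro hh
    exact hl (h2.2 hh)

/-- the refined matrix has injective augmentation -/
theorem refined_inj (hT : ∀ a : R →₀ ℤ, (∀ j, a.sum (fun i n => n * aug (T i j)) = 0) → a = 0)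
    (t : L) (ht : φ t = Multiplicative.ofAdd 1) :
    ∀ (n : ℕ) (m : ℤ) (a : (R × ℤ) →₀ ℤ), (∀ x, a x ≠ 0 → m ≤ x.2 ∧ x.2 < m + n) →
      (∀ j p, colEq T h L φ a j p = 0) → a = 0 := by
  classical
  intro n
  induction n with
  | zero =>
    intro m a ha _
    ext x
    by_contra hx
    have := ha x hx
    simp at this
    omega
  | succ n ih =>
    intro m a ha hcol
    -- the sums over levels vanish
    have hb : a.mapDomain Prod.fst = 0 := by
      apply hT
      intro j
      rw [Finsupp.sum_mapDomain_index]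
      · exact sum_aug_of_colEq T h L φ a j t ht (hcol j)
      · intro i; simp
      · intro i n m; ring
    have hb' : ∀ i, ∑ l ∈ Finset.Ico m (m + (n + 1 : ℕ)), a (i, l) = 0 := by
      intro i
      have h1 := DFunLike.congr_fun hb i
      rw [Finsupp.mapDomain, Finsupp.sum_apply] at h1
      have h2 : (a.sum fun x n => (Finsupp.single x.1 n : R →₀ ℤ) i)
          = ∑ x ∈ a.support.filter (fun x => x.1 = i), a x := by
        rw [Finset.sum_filter]
        apply Finset.sum_congr rfl
        intro x _
        exact Finsupp.single_apply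
      rw [h2] at h1
      rw [Finsupp.coe_zero, Pi.zero_apply] at h1
      rw [← h1]
      symm
      have h3 : ∑ l ∈ Finset.Ico m (m + (n + 1 : ℕ)), a (i, l)
          = ∑ x ∈ (Finset.Ico m (m + (n + 1 : ℕ))).image (fun l => (i, l)), a x := by
        rw [Finset.sum_image]
        intro l _ l' _ hll
        exact (Prod.mk.injEq _ _ _ _ ▸ hll).2
      rw [h3]
      apply Finset.sum_subset
      · intro x hx
        rw [Finset.mem_filter] at hx
        rw [Finset.mem_image]
        refine ⟨x.2, ?_, ?_⟩
        · rw [Finset.mem_Ico]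
          exact ha x (Finsupp.mem_support_iff.1 hx.1)
        · rw [← hx.2]
      · intro x hx hx'
        by_contra hne
        apply hx'
        rw [Finset.mem_filter]
        refine ⟨Finsupp.mem_support_iff.2 hne, ?_⟩
        rw [Finset.mem_image] at hx
        obtain ⟨l, _, rfl⟩ := hx
        rfl
    -- partial sums
    let cfun : R × ℤ → ℤ := fun x => -∑ l ∈ Finset.Ico m (x.2 + 1), a (x.1, l)
    have hc0 : ∀ x, cfun x ≠ 0 → m ≤ x.2 ∧ x.2 < m + n := by
      intro x hx
      constructor
      · by_contra hlt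
        push Not at hlt
        apply hx
        simp only [cfun]
        rw [Finset.Ico_eq_empty (by omega), Finset.sum_empty, neg_zero]
      · by_contra hge
        push Not at hge
        apply hx
        simp only [cfun]
        have h1 : ∑ l ∈ Finset.Ico m (x.2 + 1), a (x.1, l)
            = ∑ l ∈ Finset.Ico m (m + (n + 1 : ℕ)), a (x.1, l) := by
          symm
          apply Finset.sum_subset
          · intro l hl
            rw [Finset.mem_Ico] at hl ⊢
            push_cast at hl
            omega
          · intro l _ hl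
            by_contra hne
            have h2 := ha (x.1, l) hne
            apply hl
            rw [Finset.mem_Ico]
            exact h2
        rw [h1, hb' x.1, neg_zero]
    have hcfin : (Function.support cfun).Finite := by
      apply Set.Finite.subset ((a.support.image Prod.fst ×ˢ Finset.Ico m (m + n)).finite_toSet)
      intro x hx
      rw [Finset.coe_product, Set.mem_prod]
      refine ⟨?_, ?_⟩
      · have : ∑ l ∈ Finset.Ico m (x.2 + 1), a (x.1, l) ≠ 0 := by
          intro h0
          apply hx
          simp only [cfun, h0, neg_zero]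
        obtain ⟨l, _, hl⟩ := Finset.exists_ne_zero_of_sum_ne_zero this
        rw [Finset.mem_coe, Finset.mem_image]
        exact ⟨(x.1, l), Finsupp.mem_support_iff.2 hl, rfl⟩
      · have := hc0 x hx
        rw [Finset.mem_coe, Finset.mem_Ico]
        exact this
    let c : (R × ℤ) →₀ ℤ := Finsupp.ofSupportFinite cfun hcfin
    have hcapp : ∀ x, c x = cfun x := fun x => rfl
    have hac : a = sh c - c := by
      ext ⟨i, k⟩
      rw [Finsupp.sub_apply, sh_apply, hcapp, hcapp]
      simp only [cfun, sub_add_cancel]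
      by_cases hk : m ≤ k
      · have h1 : ∑ l ∈ Finset.Ico m (k + 1), a (i, l) = ∑ l ∈ Finset.Ico m k, a (i, l) + a (i, k) := by
          have h2 : Finset.Ico m (k + 1) = insert k (Finset.Ico m k) := by
            ext l
            simp only [Finset.mem_Ico, Finset.mem_insert]
            omega
          rw [h2, Finset.sum_insert (by simp)]
          ring
        rw [h1]; ring
      · have h2 : a (i, k) = 0 := by
          by_contra hne
          have := ha (i, k) hne
          exact hk this.1
        rw [h2, Finset.Ico_eq_empty (by omega), Finset.Ico_eq_empty (by omega)]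
        simp
    have hc : c = 0 := by
      apply ih m c (fun x hx => hc0 x hx)
      intro j
      apply colEq_zero_of_inv T h L φ c j t ht
      intro p
      have h1 := hcol j p
      rw [hac, colEq_sub, colEq_sh T h L φ c j p t ht] at h1
      linarith
    rw [hac, hc]
    ext ⟨i, k⟩
    rw [Finsupp.sub_apply, sh_apply]
    simp

end

section

variable {G : Type} [Group G] (K : Subgroup G)

/-- the refined matrix -/
noncomputable def refinedMat {R C : Type} (T : R → C → (G →₀ ℤ)) (h : R → G) (L : Subgroup G)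
    (φ : L →* Multiplicative ℤ) (x : R × ℤ) (y : C × G) : G →₀ ℤ :=
  open Classical in (T x.1 y.1).filter fun g => Lev L φ x.2 (h x.1 * g) y.2

theorem aug_refine {R C : Type} (T : R → C → (G →₀ ℤ)) (h : R → G) (L : Subgroup G)
    (φ : L →* Multiplicative ℤ) (a : (R × ℤ) →₀ ℤ) (j : C) (p : G) :
    a.sum (fun x n => n * aug (refinedMat T h L φ x (j, p))) = colEq T h L φ a j p := by
  classical
  unfold colEq
  apply Finsupp.sum_congr
  intro x _
  congr 1
  unfold aug refinedMat
  rw [Finsupp.sum, Finsupp.support_filter, Finset.sum_filter]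
  apply Finset.sum_congr rfl
  intro g _
  by_cases hl : Lev L φ x.2 (h x.1 * g) p
  · simp [hl]
  · simp [hl]

/-- pushing the equation to the augmentation -/
theorem mapDomain_fst_eq_zero {R C : Type} (T : R → C → (G →₀ ℤ))
    (hT : ∀ a : R →₀ ℤ, (∀ j, a.sum (fun i n => n * aug (T i j)) = 0) → a = 0)
    (w : (R × G) →₀ ℤ) (heq : ∀ j q, w.sum (fun x n => n * T x.1 j (x.2⁻¹ * q)) = 0) :
    w.mapDomain Prod.fst = 0 := by
  classical
  apply hT
  intro j
  rw [Finsupp.sum_mapDomain_index (by intro i; simp) (by intro i n m; ring)]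
  -- the product as a finitely supported function
  let F : G →₀ ℤ := w.sum fun x n => n • (T x.1 j).mapDomain (fun g => x.2 * g)
  have hF : F = 0 := by
    ext q
    show (w.sum fun x n => n • (T x.1 j).mapDomain (fun g => x.2 * g)) q = 0
    rw [Finsupp.sum_apply, ← heq j q]
    apply Finsupp.sum_congr
    intro x _
    rw [Finsupp.smul_apply, smul_eq_mul]
    congr 1
    have := Finsupp.mapDomain_apply (mul_right_injective x.2) (T x.1 j) (x.2⁻¹ * q)
    rw [mul_inv_cancel_left] at this
    exact this
  have haug : aug F = w.sum fun x n => n * aug (T x.1 j) := by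
    let A : (G →₀ ℤ) →+ ℤ := Finsupp.liftAddHom (fun _ => AddMonoidHom.id ℤ)
    have hA : ∀ f, A f = aug f := fun f => rfl
    rw [← hA]
    show A (w.sum fun x n => n • (T x.1 j).mapDomain (fun g => x.2 * g)) = _
    rw [map_finsuppSum]
    apply Finsupp.sum_congr
    intro x _
    rw [map_zsmul, smul_eq_mul, hA]
    congr 1
    unfold aug
    rw [Finsupp.sum_mapDomain_index (by intro i; rfl) (by intro i n m; rfl)]
  rw [← haug, hF]
  simp [aug]

theorem conservative_base {R C : Type} (T : R → C → (G →₀ ℤ))
    (hT : ∀ a : R →₀ ℤ, (∀ j, a.sum (fun i n => n * aug (T i j)) = 0) → a = 0)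
    (w : (R × G) →₀ ℤ) (heq : ∀ j q, w.sum (fun x n => n * T x.1 j (x.2⁻¹ * q)) = 0)
    (hsub : ∀ i g g', w (i, g) ≠ 0 → w (i, g') ≠ 0 → g = g') : w = 0 := by
  classical
  ext ⟨i, g⟩
  by_contra hne
  have h0 := DFunLike.congr_fun (mapDomain_fst_eq_zero T hT w heq) i
  rw [Finsupp.mapDomain, Finsupp.sum_apply, Finsupp.sum, Finset.sum_eq_single (i, g)] at h0
  · rw [Finsupp.single_apply, if_pos rfl] at h0
    exact hne h0
  · rintro ⟨i', g'⟩ hx hne'
    rw [Finsupp.single_apply, if_neg]
    rintro rfl
    apply hne'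
    rw [hsub i' g g' hne (Finsupp.mem_support_iff.1 hx)]
  · intro hx
    exact absurd (Finsupp.mem_support_iff.2 hne) hx

/-- Main theorem: by induction on `#supp w - #rows`. -/
theorem conservative_aux (hK : LocallyIndicable K) : ∀ (n : ℕ) {R C : Type} [DecidableEq R]
    (T : R → C → (G →₀ ℤ))
    (_ : ∀ a : R →₀ ℤ, (∀ j, a.sum (fun i n => n * aug (T i j)) = 0) → a = 0)
    (w : (R × G) →₀ ℤ) (_ : ∀ i g g', w (i, g) ≠ 0 → w (i, g') ≠ 0 → g * g'⁻¹ ∈ K)
    (_ : ∀ j q, w.sum (fun x n => n * T x.1 j (x.2⁻¹ * q)) = 0)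
    (_ : w.support.card ≤ (w.support.image Prod.fst).card + n), w = 0 := by
  intro n
  induction n with
  | zero =>
    intro R C _ T hT w hw heq hcard
    apply conservative_base T hT w heq
    intro i g g' hg hg'
    have hinj : Set.InjOn Prod.fst (w.support : Set (R × G)) := by
      rw [← Finset.card_image_iff]
      apply le_antisymm Finset.card_image_le
      simpa using hcard
    have := hinj (Finset.mem_coe.2 (Finsupp.mem_support_iff.2 hg))
      (Finset.mem_coe.2 (Finsupp.mem_support_iff.2 hg')) rfl
    exact (Prod.mk.injEq _ _ _ _ ▸ this).2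
  | succ n ih =>
    intro R C _ T hT w hw heq hcard
    have hdec : ∀ (L : Subgroup G) (φ : L →* Multiplicative ℤ) (q p : G),
        Decidable (Lev L φ 0 q p) := fun L φ q p => Classical.propDecidable _
    have hdecG : DecidableEq G := Classical.decEq G
    have hdecL : ∀ (L : Subgroup G) (q : G), Decidable (q ∈ L) := fun L q =>
      Classical.propDecidable _
    -- base points
    have hbase : ∀ i : R, ∃ h : G, (∃ g, w (i, g) ≠ 0) → w (i, h) ≠ 0 := by
      intro i
      by_cases hex : ∃ g, w (i, g) ≠ 0
      · obtain ⟨g, hg⟩ := hex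
        exact ⟨g, fun _ => hg⟩
      · exact ⟨1, fun hh => absurd hh hex⟩
    choose h hh using hbase
    let S : Finset G := w.support.image fun x => x.2 * (h x.1)⁻¹
    let L : Subgroup G := Subgroup.closure (S : Set G)
    have hmem : ∀ x : R × G, w x ≠ 0 → x.2 * (h x.1)⁻¹ ∈ L := by
      intro x hx
      apply Subgroup.subset_closure
      rw [Finset.mem_coe, Finset.mem_image]
      exact ⟨x, Finsupp.mem_support_iff.2 hx, rfl⟩
    have hLK : L ≤ K := by
      rw [Subgroup.closure_le]
      intro y hy
      rw [Finset.mem_coe, Finset.mem_image] at hy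
      obtain ⟨⟨i, g⟩, hx, rfl⟩ := hy
      exact hw i g (h i) (Finsupp.mem_support_iff.1 hx) (hh i ⟨g, Finsupp.mem_support_iff.1 hx⟩)
    by_cases hL : L = ⊥
    · apply conservative_base T hT w heq
      have hall : ∀ i g, w (i, g) ≠ 0 → g = h i := by
        intro i g hg
        have := hmem (i, g) hg
        rw [hL, Subgroup.mem_bot] at this
        exact mul_inv_eq_one.1 this
      intro i g g' hg hg'
      rw [hall i g hg, hall i g' hg']
    obtain ⟨φ, hφ⟩ := hK L hLK ⟨S, rfl⟩ hL
    obtain ⟨t, ht⟩ := hφ (Multiplicative.ofAdd 1)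
    -- some generator has nonzero level
    obtain ⟨x0, hx0, hx0'⟩ : ∃ x, ∃ hx : w x ≠ 0, φ ⟨x.2 * (h x.1)⁻¹, hmem x hx⟩ ≠ 1 := by
      by_contra hcon
      push Not at hcon
      have hker : ∀ y : G, ∀ hy : y ∈ L, φ ⟨y, hy⟩ = 1 := by
        intro y hy
        induction hy using Subgroup.closure_induction with
        | mem y hy =>
          have hy' := hy
          rw [Finset.mem_coe, Finset.mem_image] at hy'
          obtain ⟨x, hx, rfl⟩ := hy'
          exact hcon x (Finsupp.mem_support_iff.1 hx)
        | one => exact map_one φ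
        | mul a b ha hb iha ihb =>
          have : (⟨a * b, L.mul_mem ha hb⟩ : L) = ⟨a, ha⟩ * ⟨b, hb⟩ := rfl
          rw [this, map_mul, iha, ihb, one_mul]
        | inv a ha iha =>
          have : (⟨a⁻¹, L.inv_mem ha⟩ : L) = ⟨a, ha⟩⁻¹ := rfl
          rw [this, map_inv, iha, inv_one]
      have := hker t.1 t.2
      rw [show (⟨t.1, t.2⟩ : L) = t from rfl, ht] at this
      exact absurd this (by decide)
    let lev : R × G → ℤ := fun x =>
      if hx : x.2 * (h x.1)⁻¹ ∈ L then Multiplicative.toAdd (φ ⟨_, hx⟩) else 0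
    have hlev : ∀ x (hx : w x ≠ 0), φ ⟨x.2 * (h x.1)⁻¹, hmem x hx⟩ = Multiplicative.ofAdd (lev x) := by
      intro x hx
      simp only [lev]
      rw [dif_pos (hmem x hx)]
      rfl
    let f : R × G → (R × ℤ) × G := fun x => ((x.1, lev x), x.2)
    have hf : Function.Injective f := by
      rintro ⟨i, g⟩ ⟨i', g'⟩ hff
      simp only [f, Prod.mk.injEq] at hff
      rw [hff.1.1, hff.2]
    have hw'app : ∀ i k g, (w.mapDomain f) ((i, k), g) ≠ 0 → w (i, g) ≠ 0 := by
      intro i k g hne
      have hmemr : ((i, k), g) ∈ (w.mapDomain f).support := Finsupp.mem_support_iff.2 hne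
      rw [Finsupp.mapDomain_support_of_injective hf, Finset.mem_image] at hmemr
      obtain ⟨x, hx, hxe⟩ := hmemr
      have h1 : x = (i, g) := by
        simp only [f, Prod.mk.injEq] at hxe
        exact Prod.ext hxe.1.1 hxe.2
      rw [← h1]
      exact Finsupp.mem_support_iff.1 hx
    have hres : w.mapDomain f = 0 := by
      apply ih (refinedMat T h L φ) _ (w.mapDomain f)
      · rintro ⟨i, k⟩ g g' hg hg'
        exact hw i g g' (hw'app i k g hg) (hw'app i k g' hg')
      · rintro ⟨j, p⟩ q
        rw [Finsupp.sum_mapDomain_index (by intro i; simp) (by intro i n m; ring)]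
        have h1 : (w.sum fun x n => n * refinedMat T h L φ (f x).1 (j, p) ((f x).2⁻¹ * q))
            = w.sum fun x n => if Lev L φ 0 q p then n * T x.1 j (x.2⁻¹ * q) else 0 := by
          apply Finsupp.sum_congr
          intro x hx
          have hx' := Finsupp.mem_support_iff.1 hx
          show w x * refinedMat T h L φ (x.1, lev x) (j, p) (x.2⁻¹ * q) = _
          unfold refinedMat
          rw [Finsupp.filter_apply]
          have h2 : Lev L φ (lev x) (h x.1 * (x.2⁻¹ * q)) p ↔ Lev L φ 0 q p := by
            constructor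
            · rintro ⟨m, hm, hp⟩
              refine ⟨m * ⟨x.2 * (h x.1)⁻¹, hmem x hx'⟩⁻¹, ?_, ?_⟩
              · rw [map_mul, map_inv, hm, hlev x hx', mul_inv_cancel]; rfl
              · rw [hp, Subgroup.coe_mul, Subgroup.coe_inv]; group
            · rintro ⟨m, hm, hp⟩
              refine ⟨m * ⟨x.2 * (h x.1)⁻¹, hmem x hx'⟩, ?_, ?_⟩
              · rw [map_mul, hm, hlev x hx']; simp
              · rw [hp, Subgroup.coe_mul]; group
          simp only [h2]
          split <;> simp
        rw [h1]
        by_cases hl : Lev L φ 0 q p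
        · simp only [hl, if_true]
          exact heq j q
        · simp [hl]
      · have h0 : ((w.mapDomain f).support.image Prod.fst) = w.support.image (Prod.fst ∘ f) := by
          rw [Finsupp.mapDomain_support_of_injective hf, Finset.image_image]
        have h0' : (w.mapDomain f).support.card = w.support.card := by
          rw [Finsupp.mapDomain_support_of_injective hf, Finset.card_image_of_injective _ hf]
        rw [h0, h0']
        have h3 : (w.support.image Prod.fst).card < (w.support.image (Prod.fst ∘ f)).card := by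
          have h4 : w.support.image Prod.fst = (w.support.image (Prod.fst ∘ f)).image Prod.fst := by
            rw [Finset.image_image]; rfl
          rw [h4]
          apply lt_of_le_of_ne Finset.card_image_le
          intro heqc
          rw [Finset.card_image_iff] at heqc
          have hb : w (x0.1, h x0.1) ≠ 0 := hh x0.1 ⟨x0.2, hx0⟩
          have h5 := @heqc ((Prod.fst ∘ f) x0)
            (Finset.mem_coe.2 (Finset.mem_image_of_mem _ (Finsupp.mem_support_iff.2 hx0)))
            ((Prod.fst ∘ f) (x0.1, h x0.1)) (Finset.mem_coe.2 (Finset.mem_image_of_mem _ (Finsupp.mem_support_iff.2 hb))) rfl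
          have h6 : lev x0 = lev (x0.1, h x0.1) := (Prod.mk.injEq _ _ _ _ ▸ h5).2
          apply hx0'
          rw [hlev x0 hx0, h6, ← hlev (x0.1, h x0.1) hb]
          have h7 : (⟨(x0.1, h x0.1).2 * (h (x0.1, h x0.1).1)⁻¹, hmem _ hb⟩ : L) = 1 := by
            apply Subtype.ext
            exact mul_inv_cancel _
          rw [h7, map_one]
        omega
      · intro a ha
        apply refined_inj T h L φ hT t ht (2 * a.support.sup (fun x => x.2.natAbs) + 1)
          (-(a.support.sup (fun x => x.2.natAbs) : ℕ)) a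
        · intro x hx
          have h1 : x.2.natAbs ≤ a.support.sup (fun x => x.2.natAbs) :=
            Finset.le_sup (f := fun x : R × ℤ => x.2.natAbs) (Finsupp.mem_support_iff.2 hx)
          push_cast
          omega
        · intro j p
          rw [← aug_refine]
          exact ha (j, p)
    exact Finsupp.mapDomain_injective hf (by rw [hres, Finsupp.mapDomain_zero])

/-- Let `w` be a finitely supported row vector whose entries have supports in right cosets of a
locally indicable subgroup `K`, and `T` a matrix with injective augmentation. If `w T = 0` then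
`w = 0`. -/
theorem conservative (hK : LocallyIndicable K) {R C : Type} (T : R → C → (G →₀ ℤ))
    (hT : ∀ a : R →₀ ℤ, (∀ j, a.sum (fun i n => n * aug (T i j)) = 0) → a = 0)
    (w : (R × G) →₀ ℤ) (hw : ∀ i g g', w (i, g) ≠ 0 → w (i, g') ≠ 0 → g * g'⁻¹ ∈ K)
    (heq : ∀ j q, w.sum (fun x n => n * T x.1 j (x.2⁻¹ * q)) = 0) : w = 0 := by
  classical
  exact conservative_aux K hK w.support.card T hT w hw heq (Nat.le_add_left _ _)

end

end Pool.Agent.FoxAsph
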