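import Mathlib

/-!
# Fox calculus and asphericity of presentation complexes

Words, the presented group, Fox derivatives in the integral group ring, and asphericity of a
presentation: injectivity of the Fox Jacobian, that is, vanishing of the second homology of the
universal cover of the presentation 2-complex (which is its second homotopy group).
-/

set_option autoImplicit false

open scoped BigOperators

namespace Pool.Agent.FoxAsph

/-- Words in the generators `X` and their inverses; `(x, true)` is the letter `x` and `(x, false)`
is the letter `x⁻¹`. -/
abbrev Word (X : Type) : Type := List (X × Bool)

/-- The group with generators `X` and relators the words `rel i`. -/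
abbrev Grp {X ι : Type} (rel : ι → Word X) : Type :=
  PresentedGroup (Set.range fun i => FreeGroup.mk (rel i))

/-- The element of the presented group that a word represents. -/
def val {X ι : Type} (rel : ι → Word X) (w : Word X) : Grp rel :=
  PresentedGroup.mk _ (FreeGroup.mk w)

/-- The Fox derivative `∂w/∂x` of a word, taken in the integral group ring of the presented group:
`∂(y w)/∂x = δ + y ∂w/∂x` and `∂(y⁻¹ w)/∂x = - δ y⁻¹ + y⁻¹ ∂w/∂x`, with `δ = 1` if `y = x` and
`δ = 0` otherwise. -/
noncomputable def fox {X ι : Type} (rel : ι → Word X) (x : X) :
    Word X → MonoidAlgebra ℤ (Grp rel)
  | [] => 0
  | (y, true) :: w => (open Classical in if y = x then 1 else 0)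
      + MonoidAlgebra.of ℤ (Grp rel) (val rel [(y, true)]) * fox rel x w
  | (y, false) :: w =>
      - (open Classical in if y = x then MonoidAlgebra.of ℤ (Grp rel) (val rel [(y, false)]) else 0)
      + MonoidAlgebra.of ℤ (Grp rel) (val rel [(y, false)]) * fox rel x w

/-- The finite presentation `⟨X ∣ rel i (i : ι)⟩` is aspherical: the boundary map
`ℤ[G]^ι → ℤ[G]^X`, `z ↦ z * (Fox Jacobian)`, of the universal cover of its presentation complex is
injective. The kernel of this map is the second homology of the universal cover, which is the second
homotopy group of the presentation complex. -/
def Aspherical {X ι : Type} [Fintype ι] (rel : ι → Word X) : Prop :=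
  ∀ z : ι → MonoidAlgebra ℤ (Grp rel), (∀ x : X, ∑ i, z i * fox rel x (rel i) = 0) → z = 0

/-- The generator at place `p` of a word. -/
def letter {X : Type} (w : Word X) (p : Fin w.length) : X := (w.get p).1

/-- The group element `g` for which `± g` is the term that place `p` of the word `w` contributes to
the Fox derivative of `w` with respect to the generator at that place: the value of the part of `w`
before place `p` if the letter at `p` is a generator, and the value of the part up to and including
place `p` if it is the inverse of a generator. It is the end at which the edge crossed at place `p`
starts, in the lift of `w` to the universal cover. -/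
def place {X ι : Type} (rel : ι → Word X) (w : Word X) (p : Fin w.length) : Grp rel :=
  if (w.get p).2 then val rel (w.take p) else val rel (w.take (p + 1))

/-- A place of a relator: an index of a relator together with a place in it. -/
abbrev Occ {X ι : Type} (rel : ι → Word X) : Type := (i : ι) × Fin (rel i).length

/-- The holonomy of `k` steps along the sequence `s` of relators, where `τ` and `τ₁` choose a place in
every relator: the product, for `m = 0, …, k - 1`, of (the element at the place `τ (s m)`) times the
inverse of (the element at the place `τ₁ (s (m + 1))`). -/
def hol {X ι : Type} (rel : ι → Word X) (τ τ₁ : (i : ι) → Fin (rel i).length) (s : ℕ → ι) (k : ℕ) :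
    Grp rel :=
  ((List.range k).map fun m =>
    place rel (rel (s m)) (τ (s m)) * (place rel (rel (s (m + 1))) (τ₁ (s (m + 1))))⁻¹).prod

/-- The total weight of a word for a weight `ξ` of the generators (inverse letters count negatively). -/
def wt {X Λ : Type} [AddCommGroup Λ] (ξ : X → Λ) (w : Word X) : Λ :=
  (w.map fun l => if l.2 then ξ l.1 else -ξ l.1).sum

/-- The height of place `p` of the word `w`: the total weight of the part of `w` before place `p` if
the letter at `p` is a generator, and of the part up to and including place `p` if it is the inverse
of a generator. -/
def height {X Λ : Type} [AddCommGroup Λ] (ξ : X → Λ) (w : Word X) (p : Fin w.length) : Λ :=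
  if (w.get p).2 then wt ξ (w.take p) else wt ξ (w.take (p + 1))

/-- The cost of a choice `τ` of a place in every relator: the sum of the heights of these places. -/
def cost {X ι Λ : Type} [Fintype ι] [AddCommGroup Λ] (ξ : X → Λ) (rel : ι → Word X)
    (τ : (i : ι) → Fin (rel i).length) : Λ :=
  ∑ i, height ξ (rel i) (τ i)

end Pool.Agent.FoxAsph
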