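import Pool.Agent.FoxAsph.Defs

/-!
# Elements of the kernel of the Fox Jacobian give closed walks with trivial holonomy
-/

set_option autoImplicit false

open scoped BigOperators

namespace Pool.Agent.FoxAsph

variable {X ι : Type}

theorem val_nil (rel : ι → Word X) : val rel [] = 1 := by
  unfold val
  rw [← FreeGroup.one_eq_mk, map_one]

theorem val_append (rel : ι → Word X) (u v : Word X) :
    val rel (u ++ v) = val rel u * val rel v := by
  unfold val
  rw [← map_mul, FreeGroup.mul_mk]

theorem val_cons (rel : ι → Word X) (l : X × Bool) (v : Word X) :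
    val rel (l :: v) = val rel [l] * val rel v := by
  rw [← val_append]; rfl

/-- sign of a place -/
def sgn (w : Word X) (p : Fin w.length) : ℤ := if (w.get p).2 then 1 else -1

theorem sgn_ne (w : Word X) (p : Fin w.length) : sgn w p ≠ 0 := by
  unfold sgn; split <;> norm_num

theorem place_zero_true (rel : ι → Word X) (y : X) (w : Word X) :
    place rel ((y, true) :: w) (0 : Fin (w.length + 1)) = 1 := by
  unfold place
  simp [val_nil]

theorem place_zero_false (rel : ι → Word X) (y : X) (w : Word X) :
    place rel ((y, false) :: w) (0 : Fin (w.length + 1)) = val rel [(y, false)] := by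
  unfold place
  simp

theorem place_succ (rel : ι → Word X) (l : X × Bool) (w : Word X) (p : Fin w.length) :
    place rel (l :: w) (p.succ : Fin (w.length + 1)) = val rel [l] * place rel w p := by
  unfold place
  have h : ((l :: w).get (p.succ : Fin (w.length + 1))) = w.get p := by simp
  rw [h]
  by_cases hb : (w.get p).2
  · rw [if_pos hb, if_pos hb]
    have : (l :: w).take ((p.succ : Fin (w.length + 1)) : ℕ) = l :: w.take (p : ℕ) := by simp
    rw [this, val_cons]
  · rw [if_neg hb, if_neg hb]
    have : (l :: w).take (((p.succ : Fin (w.length + 1)) : ℕ) + 1) = l :: w.take ((p : ℕ) + 1) := by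
      simp
    rw [this, val_cons]

open Classical in
theorem fox_eq (rel : ι → Word X) (x : X) (w : Word X) :
    fox rel x w = ∑ p : Fin w.length,
      if letter w p = x then MonoidAlgebra.single (place rel w p) (sgn w p) else 0 := by
  induction w with
  | nil => simp [fox]
  | cons l w ih =>
    have hlen : (l :: w).length = w.length + 1 := rfl
    have hsum : (∑ p : Fin (l :: w).length,
        if letter (l :: w) p = x then MonoidAlgebra.single (place rel (l :: w) p) (sgn (l :: w) p)
          else 0)
        = (if letter (l :: w) (0 : Fin (w.length + 1)) = x then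
            MonoidAlgebra.single (place rel (l :: w) (0 : Fin (w.length + 1)))
              (sgn (l :: w) (0 : Fin (w.length + 1))) else 0)
          + ∑ p : Fin w.length,
            (if letter (l :: w) (p.succ : Fin (w.length + 1)) = x then
              MonoidAlgebra.single (place rel (l :: w) (p.succ : Fin (w.length + 1)))
                (sgn (l :: w) (p.succ : Fin (w.length + 1))) else 0) :=
      Fin.sum_univ_succ (n := w.length) _
    rw [hsum]
    have h2 : ∀ p : Fin w.length,
        (if letter (l :: w) (p.succ : Fin (w.length + 1)) = x then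
              MonoidAlgebra.single (place rel (l :: w) (p.succ : Fin (w.length + 1)))
                (sgn (l :: w) (p.succ : Fin (w.length + 1))) else 0)
        = MonoidAlgebra.of ℤ (Grp rel) (val rel [l]) *
          (if letter w p = x then MonoidAlgebra.single (place rel w p) (sgn w p) else 0) := by
      intro p
      have hl : letter (l :: w) (p.succ : Fin (w.length + 1)) = letter w p := by
        simp [letter]
      have hs : sgn (l :: w) (p.succ : Fin (w.length + 1)) = sgn w p := by
        simp [sgn]
      rw [hl, hs, place_succ]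
      split
      · simp [MonoidAlgebra.of_apply, MonoidAlgebra.single_mul_single]
      · simp
    rw [Finset.sum_congr rfl (fun p _ => h2 p), ← Finset.mul_sum, ← ih]
    obtain ⟨y, b⟩ := l
    cases b with
    | true =>
      rw [place_zero_true]
      have hl : letter ((y, true) :: w) (0 : Fin (w.length + 1)) = y := rfl
      have hs : sgn ((y, true) :: w) (0 : Fin (w.length + 1)) = 1 := rfl
      rw [hl, hs]
      simp only [fox]
      congr 1
    | false =>
      rw [place_zero_false]
      have hl : letter ((y, false) :: w) (0 : Fin (w.length + 1)) = y := rfl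
      have hs : sgn ((y, false) :: w) (0 : Fin (w.length + 1)) = -1 := rfl
      rw [hl, hs]
      simp only [fox]
      congr 1
      split
      · rw [MonoidAlgebra.of_apply]
        simp
      · simp

/-- one step: the term at the chosen place must be cancelled by another term -/
theorem step [Fintype ι] (rel : ι → Word X) (τ : (i : ι) → Fin (rel i).length)
    (z : ι → MonoidAlgebra ℤ (Grp rel)) (hz : ∀ x : X, ∑ i, z i * fox rel x (rel i) = 0)
    (i : ι) (g : Grp rel) (hg : (z i).coeff g ≠ 0) :
    ∃ o : Occ rel, letter (rel o.1) o.2 = letter (rel i) (τ i) ∧ o ≠ ⟨i, τ i⟩ ∧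
      (z o.1).coeff (g * (place rel (rel i) (τ i) * (place rel (rel o.1) o.2)⁻¹)) ≠ 0 := by
  classical
  by_contra hcon
  push Not at hcon
  set x := letter (rel i) (τ i) with hx
  have h0 := congrArg (fun a : MonoidAlgebra ℤ (Grp rel) => a.coeff (g * place rel (rel i) (τ i))) (hz x)
  have h1 : ∀ j : ι, (z j * fox rel x (rel j)).coeff (g * place rel (rel i) (τ i))
      = ∑ p : Fin (rel j).length, if letter (rel j) p = x then
          (z j).coeff (g * (place rel (rel i) (τ i) * (place rel (rel j) p)⁻¹)) * sgn (rel j) p else 0 := by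
    intro j
    rw [fox_eq, Finset.mul_sum, MonoidAlgebra.coeff_sum, Finsupp.finsetSum_apply]
    refine Finset.sum_congr rfl (fun p _ => ?_)
    split
    · rw [MonoidAlgebra.coeff_mul_single_apply, mul_assoc]
    · simp
  have h2 : (∑ j, z j * fox rel x (rel j)).coeff (g * place rel (rel i) (τ i))
      = ∑ j, (z j * fox rel x (rel j)).coeff (g * place rel (rel i) (τ i)) := by
    rw [MonoidAlgebra.coeff_sum, Finsupp.finsetSum_apply]
  simp only [h2, h1] at h0
  rw [Finset.sum_eq_single i, Finset.sum_eq_single (τ i)] at h0
  · rw [if_pos rfl, mul_inv_cancel, mul_one] at h0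
    have : (z i).coeff g * sgn (rel i) (τ i) = 0 := h0
    rcases mul_eq_zero.1 this with h | h
    · exact hg h
    · exact sgn_ne _ _ h
  · intro p _ hp
    split
    · rename_i hl
      have := hcon ⟨i, p⟩ hl (by
        intro h
        apply hp
        have := (Sigma.mk.inj_iff.1 h).2
        exact eq_of_heq this)
      rw [this, zero_mul]
    · rfl
  · intro h; exact absurd (Finset.mem_univ _) h
  · intro j _ hj
    apply Finset.sum_eq_zero
    intro p _
    split
    · rename_i hl
      have := hcon ⟨j, p⟩ hl (by
        intro h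
        exact hj (Sigma.mk.inj_iff.1 h).1)
      rw [this, zero_mul]
    · rfl
  · intro h; exact absurd (Finset.mem_univ _) h

/-- A nonzero element of the kernel of the Fox Jacobian gives a closed walk with trivial holonomy. -/
theorem exists_walk [Fintype ι] (rel : ι → Word X) (τ : (i : ι) → Fin (rel i).length)
    (z : ι → MonoidAlgebra ℤ (Grp rel)) (hz : ∀ x : X, ∑ i, z i * fox rel x (rel i) = 0)
    (hne : z ≠ 0) :
    ∃ (k : ℕ) (s : ℕ → ι) (e : (m : ℕ) → Occ rel), 0 < k ∧ s k = s 0 ∧
      (∀ m, (e m).1 = s (m + 1)) ∧
      (∀ m, letter (rel (e m).1) (e m).2 = letter (rel (s m)) (τ (s m))) ∧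
      (∀ m, e m ≠ ⟨s m, τ (s m)⟩) ∧
      ((List.range k).map fun m =>
        place rel (rel (s m)) (τ (s m)) * (place rel (rel (e m).1) (e m).2)⁻¹).prod = 1 := by
  classical
  -- finite set of pairs
  let S : Finset (ι × Grp rel) :=
    Finset.univ.biUnion fun i => (z i).coeff.support.image fun g => (i, g)
  have hS : ∀ i g, (i, g) ∈ S ↔ (z i).coeff g ≠ 0 := by
    intro i g
    simp only [S, Finset.mem_biUnion, Finset.mem_univ, true_and, Finset.mem_image,
      Finsupp.mem_support_iff, Prod.mk.injEq]
    constructor
    · rintro ⟨j, h, hh, rfl, rfl⟩; exact hh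
    · intro h; exact ⟨i, g, h, rfl, rfl⟩
  obtain ⟨i0, hi0⟩ : ∃ i, z i ≠ 0 := by
    by_contra h
    push Not at h
    exact hne (funext h)
  obtain ⟨g0, hg0⟩ : ∃ g, (z i0).coeff g ≠ 0 := by
    by_contra h
    push Not at h
    exact hi0 (MonoidAlgebra.ext (Finsupp.ext h))
  have hstep : ∀ s : S, ∃ o : Occ rel,
      letter (rel o.1) o.2 = letter (rel s.1.1) (τ s.1.1) ∧ o ≠ ⟨s.1.1, τ s.1.1⟩ ∧
      (z o.1).coeff (s.1.2 * (place rel (rel s.1.1) (τ s.1.1) * (place rel (rel o.1) o.2)⁻¹)) ≠ 0 :=
    fun s => step rel τ z hz s.1.1 s.1.2 ((hS _ _).1 s.2)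
  choose o ho1 ho2 ho3 using hstep
  let next : S → S := fun s =>
    ⟨((o s).1, s.1.2 * (place rel (rel s.1.1) (τ s.1.1) * (place rel (rel (o s).1) (o s).2)⁻¹)),
      (hS _ _).2 (ho3 s)⟩
  let s0 : S := ⟨(i0, g0), (hS _ _).2 hg0⟩
  -- periodic point
  obtain ⟨a, b, hab, heq⟩ : ∃ a b : ℕ, a < b ∧ next^[a] s0 = next^[b] s0 := by
    obtain ⟨a, b, hne', h⟩ := Finite.exists_ne_map_eq_of_infinite (fun n : ℕ => next^[n] s0)
    rcases lt_or_gt_of_ne hne' with h' | h'
    · exact ⟨a, b, h', h⟩
    · exact ⟨b, a, h', h.symm⟩
  let u : ℕ → S := fun m => next^[m] (next^[a] s0)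
  have hu : ∀ m, u (m + 1) = next (u m) := fun m => Function.iterate_succ_apply' _ _ _
  have hk : u (b - a) = u 0 := by
    show next^[b - a] (next^[a] s0) = next^[a] s0
    rw [← Function.iterate_add_apply, Nat.sub_add_cancel hab.le, ← heq]
  refine ⟨b - a, fun m => (u m).1.1, fun m => o (u m), Nat.sub_pos_of_lt hab, ?_, ?_, ?_, ?_, ?_⟩
  · show (u (b - a)).1.1 = (u 0).1.1
    rw [hk]
  · intro m
    show (o (u m)).1 = (u (m + 1)).1.1
    rw [hu]
  · intro m; exact ho1 (u m)
  · intro m; exact ho2 (u m)
  · have key : ∀ k, (u k).1.2 = (u 0).1.2 * ((List.range k).map fun m =>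
        place rel (rel (u m).1.1) (τ (u m).1.1)
          * (place rel (rel (o (u m)).1) (o (u m)).2)⁻¹).prod := by
      intro k
      induction k with
      | zero => simp
      | succ k ih =>
        rw [List.range_succ, List.map_append, List.prod_append, hu]
        show (u k).1.2 * _ = _
        rw [ih]
        simp only [List.map_cons, List.map_nil, List.prod_cons, List.prod_nil, mul_one, mul_assoc]
    have h := key (b - a)
    rw [hk] at h
    exact (mul_eq_left.1 h.symm)

end Pool.Agent.FoxAsph
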