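import Pool.Agent.FoxAsph.Main
import Pool.Agent.FoxAsph.Conservative

/-!
# Asphericity from the signed matrix of lowest places and a locally indicable holonomy group
-/

set_option autoImplicit false

open scoped BigOperators

namespace Pool.Agent.FoxAsph

variable {X ι : Type}

/-- `1` for a letter that is a generator, `-1` for a letter that is the inverse of a generator. -/
def sign (w : Word X) (p : Fin w.length) : ℤ := if (w.get p).2 then 1 else -1

/-- Place `p` of the relator `i` is a lowest one among the places of the relator at which a generator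
in `S` is crossed: its position `g • c x`, where `x` is the generator crossed and `g` the group element
of the place, is at most the position of every other such place. -/
def IsLowest {Ω : Type} [LinearOrder Ω] (rel : ι → Word X) [MulAction (Grp rel) Ω] (c : X → Ω)
    (S : Set X) (i : ι) (p : Fin (rel i).length) : Prop :=
  letter (rel i) p ∈ S ∧ ∀ q : Fin (rel i).length, letter (rel i) q ∈ S →
    place rel (rel i) p • c (letter (rel i) p) ≤ place rel (rel i) q • c (letter (rel i) q)

/-- The signed number of lowest places of the relator `i` at which the generator `x` is crossed. -/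
noncomputable def lowestCount {Ω : Type} [LinearOrder Ω] (rel : ι → Word X) [MulAction (Grp rel) Ω]
    (c : X → Ω) (S : Set X) (i : ι) (x : X) : ℤ :=
  open Classical in ∑ p : Fin (rel i).length,
    if IsLowest rel c S i p ∧ letter (rel i) p = x then sign (rel i) p else 0

theorem fox_coeff (rel : ι → Word X) (x : X) (i : ι) (g : Grp rel) :
    (fox rel x (rel i)).coeff g = (open Classical in ∑ p : Fin (rel i).length,
      if letter (rel i) p = x ∧ place rel (rel i) p = g then sign (rel i) p else 0) := by
  classical
  rw [fox_eq, MonoidAlgebra.coeff_sum, Finsupp.finsetSum_apply]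
  apply Finset.sum_congr rfl
  intro p _
  by_cases h1 : letter (rel i) p = x
  · rw [if_pos (by exact h1)]
    by_cases h2 : place rel (rel i) p = g
    · rw [if_pos ⟨h1, h2⟩, MonoidAlgebra.coeff_single, h2, Finsupp.single_eq_same]
      rfl
    · rw [if_neg (fun h => h2 h.2), MonoidAlgebra.coeff_single, Finsupp.single_eq_of_ne (Ne.symm h2)]
  · rw [if_neg (by exact h1), if_neg (fun h => h1 h.1)]
    rfl

/-- the kernel equation at generator `x` and group element `k` -/
theorem kernel_eq [Fintype ι] (rel : ι → Word X) (z : ι → MonoidAlgebra ℤ (Grp rel))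
    (hz : ∀ x : X, ∑ i, z i * fox rel x (rel i) = 0) (x : X) (k : Grp rel) :
    (open Classical in ∑ i, ∑ p : Fin (rel i).length,
      if letter (rel i) p = x then (z i).coeff (k * (place rel (rel i) p)⁻¹) * sign (rel i) p else 0)
      = 0 := by
  classical
  have h0 := congrArg (fun a : MonoidAlgebra ℤ (Grp rel) => a.coeff k) (hz x)
  refine Eq.trans ?_ h0
  show _ = (∑ i, z i * fox rel x (rel i)).coeff k
  rw [MonoidAlgebra.coeff_sum, Finsupp.finsetSum_apply]
  apply Finset.sum_congr rfl
  intro i _
  rw [fox_eq, Finset.mul_sum, MonoidAlgebra.coeff_sum, Finsupp.finsetSum_apply]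
  apply Finset.sum_congr rfl
  intro p _
  by_cases h1 : letter (rel i) p = x
  · rw [if_pos h1, if_pos h1, MonoidAlgebra.coeff_mul_single_apply]
    rfl
  · rw [if_neg h1, if_neg h1, mul_zero]
    rfl

/-- the matrix of lowest places over the group ring -/
noncomputable def lowestMatrix {Ω : Type} [LinearOrder Ω] (rel : ι → Word X)
    [MulAction (Grp rel) Ω] (c : X → Ω) (S : Set X) (i : ι) (x : S) : Grp rel →₀ ℤ :=
  open Classical in ∑ p : Fin (rel i).length,
    if IsLowest rel c S i p ∧ letter (rel i) p = x then
      Finsupp.single (place rel (rel i) p) (sign (rel i) p) else 0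

theorem aug_lowestMatrix {Ω : Type} [LinearOrder Ω] (rel : ι → Word X)
    [MulAction (Grp rel) Ω] (c : X → Ω) (S : Set X) (i : ι) (x : S) :
    aug (lowestMatrix rel c S i x) = lowestCount rel c S i x := by
  classical
  unfold lowestMatrix lowestCount
  let A : (Grp rel →₀ ℤ) →+ ℤ := Finsupp.liftAddHom (fun _ => AddMonoidHom.id ℤ)
  have hA : ∀ f, A f = aug f := fun f => rfl
  rw [← hA, map_sum]
  apply Finset.sum_congr rfl
  intro p _
  split
  · simp [A]
  · simp

theorem lowestMatrix_apply [Fintype ι] {Ω : Type} [LinearOrder Ω] (rel : ι → Word X)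
    [MulAction (Grp rel) Ω] (c : X → Ω) (S : Set X) (y : ι × Grp rel) (x : S) (k : Grp rel) :
    lowestMatrix rel c S y.1 x (y.2⁻¹ * k) = (open Classical in ∑ i, ∑ p : Fin (rel i).length,
      if (IsLowest rel c S i p ∧ letter (rel i) p = x) ∧ y = (i, k * (place rel (rel i) p)⁻¹) then
        sign (rel i) p else 0) := by
  classical
  unfold lowestMatrix
  rw [Finsupp.finsetSum_apply, Finset.sum_eq_single y.1]
  · apply Finset.sum_congr rfl
    intro p _
    by_cases h1 : IsLowest rel c S y.1 p ∧ letter (rel y.1) p = x
    · rw [if_pos h1]
      by_cases h2 : place rel (rel y.1) p = y.2⁻¹ * k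
      · rw [h2, Finsupp.single_eq_same, if_pos]
        refine ⟨h1, Prod.ext rfl ?_⟩
        show y.2 = _
        group
      · rw [Finsupp.single_eq_of_ne (Ne.symm h2), if_neg]
        rintro ⟨_, h3⟩
        apply h2
        have h4 : y.2 = k * (place rel (rel y.1) p)⁻¹ := congrArg Prod.snd h3
        rw [h4]; group
    · rw [if_neg h1, if_neg (fun h => h1 h.1)]
      rfl
  · intro i _ hi
    apply Finset.sum_eq_zero
    intro p _
    rw [if_neg]
    rintro ⟨_, h3⟩
    exact hi (congrArg Prod.fst h3).symm
  · intro h; exact absurd (Finset.mem_univ _) h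

/-- The criterion of lowest places. -/
theorem aspherical_of_lowest [Fintype ι] {Ω : Type} [LinearOrder Ω] (rel : ι → Word X)
    [MulAction (Grp rel) Ω] (hmono : ∀ (g : Grp rel) (a b : Ω), a < b → g • a < g • b)
    (c : X → Ω) (S : Set X) (K : Subgroup (Grp rel)) (hK : LocallyIndicable K)
    (u : ι → Grp rel) (v : X → Grp rel)
    (huv : ∀ i p, IsLowest rel c S i p →
      (u i)⁻¹ * place rel (rel i) p * v (letter (rel i) p) ∈ K)
    (hdet : ∀ a : ι → ℤ, (∀ x ∈ S, ∑ i, a i * lowestCount rel c S i x = 0) → a = 0) :
    Aspherical rel := by
  classical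
  intro z hz
  by_contra hne
  -- every relator has a lowest place
  have hex : ∀ i, ∃ p, IsLowest rel c S i p := by
    intro i
    by_contra hcon
    push Not at hcon
    have h1 : (Pi.single i 1 : ι → ℤ) = 0 := by
      apply hdet
      intro x _
      apply Finset.sum_eq_zero
      intro j _
      by_cases hj : j = i
      · subst hj
        have : lowestCount rel c S j x = 0 := by
          unfold lowestCount
          apply Finset.sum_eq_zero
          intro p _
          rw [if_neg (fun h => hcon p h.1)]
        rw [this, mul_zero]
      · rw [Pi.single_eq_of_ne hj, zero_mul]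
    have h2 := congrFun h1 i
    rw [Pi.single_eq_same] at h2
    exact one_ne_zero h2
  choose lo hlo using hex
  let ω : ι → Ω := fun i => place rel (rel i) (lo i) • c (letter (rel i) (lo i))
  have hω : ∀ i p, letter (rel i) p ∈ S → ω i ≤ place rel (rel i) p • c (letter (rel i) p) :=
    fun i p hp => (hlo i).2 p hp
  have hωeq : ∀ i p, IsLowest rel c S i p → place rel (rel i) p • c (letter (rel i) p) = ω i :=
    fun i p hp => le_antisymm (hp.2 _ (hlo i).1) (hω i p hp.1)
  have hωlow : ∀ i p, letter (rel i) p ∈ S → place rel (rel i) p • c (letter (rel i) p) = ω i →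
      IsLowest rel c S i p := by
    intro i p hp he
    refine ⟨hp, fun q hq => ?_⟩
    rw [he]; exact hω i q hq
  -- finite set of pairs
  let Sz : Finset (ι × Grp rel) :=
    Finset.univ.biUnion fun i => (z i).coeff.support.image fun g => (i, g)
  have hSz : ∀ i g, (i, g) ∈ Sz ↔ (z i).coeff g ≠ 0 := by
    intro i g
    simp only [Sz, Finset.mem_biUnion, Finset.mem_univ, true_and, Finset.mem_image,
      Finsupp.mem_support_iff, Prod.mk.injEq]
    constructor
    · rintro ⟨j, h, hh, rfl, rfl⟩; exact hh
    · intro h; exact ⟨i, g, h, rfl, rfl⟩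
  obtain ⟨i1, hi1⟩ : ∃ i, z i ≠ 0 := by
    by_contra h
    push Not at h
    exact hne (funext h)
  obtain ⟨g1, hg1⟩ : ∃ g, (z i1).coeff g ≠ 0 := by
    by_contra h
    push Not at h
    exact hi1 (MonoidAlgebra.ext (Finsupp.ext h))
  obtain ⟨⟨i0, g0⟩, hmem0, hmin⟩ := Finset.exists_min_image Sz (fun y => y.2 • ω y.1)
    ⟨(i1, g1), (hSz _ _).2 hg1⟩
  have hz0 : (z i0).coeff g0 ≠ 0 := (hSz _ _).1 hmem0
  have hmin' : ∀ i g, (z i).coeff g ≠ 0 → g0 • ω i0 ≤ g • ω i := fun i g h =>
    hmin (i, g) ((hSz _ _).2 h)
  let m : Ω := g0 • ω i0
  let r : Grp rel := g0 * u i0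
  let Zf : ι × Grp rel → ℤ := fun y =>
    if (r * y.2) • ω y.1 = m ∧ y.2 * u y.1 ∈ K then (z y.1).coeff (r * y.2) else 0
  have hZfin : (Function.support Zf).Finite := by
    apply Set.Finite.subset ((Sz.image fun y => (y.1, r⁻¹ * y.2)).finite_toSet)
    intro y hy
    rw [Finset.mem_coe, Finset.mem_image]
    have : (z y.1).coeff (r * y.2) ≠ 0 := by
      intro h0
      apply hy
      simp only [Zf, h0, ite_self]
    refine ⟨(y.1, r * y.2), (hSz _ _).2 this, ?_⟩
    simp
  let Z : (ι × Grp rel) →₀ ℤ := Finsupp.ofSupportFinite Zf hZfin
  have hZapp : ∀ y, Z y = if (r * y.2) • ω y.1 = m ∧ y.2 * u y.1 ∈ K then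
      (z y.1).coeff (r * y.2) else 0 := fun y => rfl
  have hZ0 : Z (i0, (u i0)⁻¹) ≠ 0 := by
    rw [hZapp]
    have h1 : r * (u i0)⁻¹ = g0 := by simp [r]
    simp only [h1]
    rw [if_pos ⟨rfl, by simp⟩]
    exact hz0
  apply hZ0
  have hZzero : Z = 0 := by
    apply conservative K hK (lowestMatrix rel c S)
    · intro a ha
      have h1 : (fun i => a i) = (0 : ι → ℤ) := by
        apply hdet
        intro x hx
        have h2 := ha ⟨x, hx⟩
        rw [Finsupp.sum_fintype _ _ (by intro i; simp)] at h2
        rw [← h2]
        apply Finset.sum_congr rfl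
        intro i _
        rw [aug_lowestMatrix]
      ext i
      exact congrFun h1 i
    · intro i g g' hg hg'
      rw [hZapp] at hg hg'
      have h1 : g * u i ∈ K := by
        by_contra h
        exact hg (if_neg (fun hh => h hh.2))
      have h2 : g' * u i ∈ K := by
        by_contra h
        exact hg' (if_neg (fun hh => h hh.2))
      have h3 := K.mul_mem h1 (K.inv_mem h2)
      have h4 : g * u i * (g' * u i)⁻¹ = g * g'⁻¹ := by group
      rwa [h4] at h3
    · rintro ⟨x, hx⟩ k
      have h1 : (Z.sum fun y n => n * lowestMatrix rel c S y.1 ⟨x, hx⟩ (y.2⁻¹ * k))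
          = ∑ i, ∑ p : Fin (rel i).length,
            if IsLowest rel c S i p ∧ letter (rel i) p = x then
              Z (i, k * (place rel (rel i) p)⁻¹) * sign (rel i) p else 0 := by
        have h2 : (Z.sum fun y n => n * lowestMatrix rel c S y.1 ⟨x, hx⟩ (y.2⁻¹ * k))
            = ∑ y ∈ Z.support, ∑ i, ∑ p : Fin (rel i).length,
              if (IsLowest rel c S i p ∧ letter (rel i) p = x) ∧
                y = (i, k * (place rel (rel i) p)⁻¹) then Z y * sign (rel i) p else 0 := by
          apply Finset.sum_congr rfl
          intro y _
          show Z y * _ = _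
          rw [lowestMatrix_apply, Finset.mul_sum]
          apply Finset.sum_congr rfl
          intro i _
          rw [Finset.mul_sum]
          apply Finset.sum_congr rfl
          intro p _
          rw [mul_ite, mul_zero]
        rw [h2, Finset.sum_comm]
        apply Finset.sum_congr rfl
        intro i _
        rw [Finset.sum_comm]
        apply Finset.sum_congr rfl
        intro p _
        by_cases h3 : IsLowest rel c S i p ∧ letter (rel i) p = x
        · rw [if_pos h3]
          have h4 : ∀ y ∈ Z.support, (if (IsLowest rel c S i p ∧ letter (rel i) p = x) ∧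
              y = (i, k * (place rel (rel i) p)⁻¹) then Z y * sign (rel i) p else 0)
              = if y = (i, k * (place rel (rel i) p)⁻¹) then
                Z (i, k * (place rel (rel i) p)⁻¹) * sign (rel i) p else 0 := by
            intro y _
            by_cases h5 : y = (i, k * (place rel (rel i) p)⁻¹)
            · rw [if_pos ⟨h3, h5⟩, if_pos h5, h5]
            · rw [if_neg (fun h => h5 h.2), if_neg h5]
          rw [Finset.sum_congr rfl h4, Finset.sum_ite_eq']
          split
          · rfl
          · rename_i hns
            rw [Finsupp.notMem_support_iff.1 hns, zero_mul]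
        · rw [if_neg h3]
          apply Finset.sum_eq_zero
          intro y _
          rw [if_neg (fun h => h3 h.1)]
      rw [h1]
      by_cases hkx : (r * k) • c x = m ∧ k * v x ∈ K
      · refine Eq.trans ?_ (kernel_eq rel z hz x (r * k))
        apply Finset.sum_congr rfl
        intro i _
        apply Finset.sum_congr rfl
        intro p _
        by_cases hl : letter (rel i) p = x
        · have hpos : (r * k * (place rel (rel i) p)⁻¹) •
              (place rel (rel i) p • c (letter (rel i) p)) = m := by
            rw [← mul_smul, hl, inv_mul_cancel_right]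
            exact hkx.1
          rw [if_pos hl]
          by_cases hlow : IsLowest rel c S i p
          · rw [if_pos ⟨hlow, hl⟩]
            congr 1
            rw [hZapp]
            have e1 : r * (k * (place rel (rel i) p)⁻¹) = r * k * (place rel (rel i) p)⁻¹ := by
              group
            simp only [e1]
            rw [if_pos]
            refine ⟨?_, ?_⟩
            · rw [← hωeq i p hlow]; exact hpos
            · have h6 := huv i p hlow
              rw [hl] at h6
              have h7 := K.mul_mem hkx.2 (K.inv_mem h6)
              have h8 : k * v x * ((u i)⁻¹ * place rel (rel i) p * v x)⁻¹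
                  = k * (place rel (rel i) p)⁻¹ * u i := by group
              rwa [h8] at h7
          · rw [if_neg (fun h => hlow h.1)]
            have h9 : (z i).coeff (r * k * (place rel (rel i) p)⁻¹) = 0 := by
              by_contra hnz
              have h10 := hmin' i _ hnz
              have hlS : letter (rel i) p ∈ S := by rw [hl]; exact hx
              have h11 : ω i < place rel (rel i) p • c (letter (rel i) p) :=
                lt_of_le_of_ne (hω i p hlS) (fun h => hlow (hωlow i p hlS h.symm))
              have h12 := hmono (r * k * (place rel (rel i) p)⁻¹) _ _ h11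
              rw [hpos] at h12
              exact absurd h12 (not_lt.2 h10)
            rw [h9, zero_mul]
        · rw [if_neg hl, if_neg (fun h => hl h.2)]
      · apply Finset.sum_eq_zero
        intro i _
        apply Finset.sum_eq_zero
        intro p _
        split
        · rename_i hh
          obtain ⟨hlow, hl⟩ := hh
          have : Z (i, k * (place rel (rel i) p)⁻¹) = 0 := by
            rw [hZapp]
            apply if_neg
            rintro ⟨h6, h7⟩
            apply hkx
            refine ⟨?_, ?_⟩
            · rw [← h6, ← hωeq i p hlow, ← mul_smul, hl]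
              congr 1
              group
            · have h8 := huv i p hlow
              rw [hl] at h8
              have h9 := K.mul_mem h7 h8
              have h10 : k * (place rel (rel i) p)⁻¹ * u i * ((u i)⁻¹ * place rel (rel i) p * v x)
                  = k * v x := by group
              rwa [h10] at h9
          rw [this, zero_mul]
        · rfl
  rw [hZzero]
  rfl

end Pool.Agent.FoxAsph
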