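import Pool.Agent.FoxAsph.Walks

/-!
# The cheapest-transversal criterion and the ordered-action criterion for asphericity
-/

set_option autoImplicit false

open scoped BigOperators

namespace Pool.Agent.FoxAsph

variable {X ι : Type}

section
variable {Λ : Type} [AddCommGroup Λ]

theorem wt_append (ξ : X → Λ) (u v : Word X) : wt ξ (u ++ v) = wt ξ u + wt ξ v := by
  simp [wt]

theorem lift_mk (ξ : X → Λ) (w : Word X) :
    FreeGroup.lift (fun x => Multiplicative.ofAdd (ξ x)) (FreeGroup.mk w)
      = Multiplicative.ofAdd (wt ξ w) := by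
  rw [FreeGroup.lift_mk]
  induction w with
  | nil => rfl
  | cons l w ih =>
    rw [List.map_cons, List.prod_cons, ih]
    obtain ⟨y, b⟩ := l
    cases b with
    | true => simp [wt, ofAdd_add]
    | false => simp [wt, ofAdd_add, ofAdd_neg]

theorem exists_hom (rel : ι → Word X) (ξ : X → Λ) (hξ : ∀ i, wt ξ (rel i) = 0) :
    ∃ φ : Grp rel →* Multiplicative Λ, ∀ w, φ (val rel w) = Multiplicative.ofAdd (wt ξ w) := by
  refine ⟨PresentedGroup.toGroup (f := fun x => Multiplicative.ofAdd (ξ x)) ?_, ?_⟩
  · rintro _ ⟨i, rfl⟩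
    show FreeGroup.lift _ (FreeGroup.mk (rel i)) = 1
    rw [lift_mk, hξ]; rfl
  · intro w
    exact lift_mk ξ w

theorem hom_place (rel : ι → Word X) (ξ : X → Λ) (φ : Grp rel →* Multiplicative Λ)
    (hφ : ∀ w, φ (val rel w) = Multiplicative.ofAdd (wt ξ w)) (w : Word X) (p : Fin w.length) :
    φ (place rel w p) = Multiplicative.ofAdd (height ξ w p) := by
  unfold place height
  split
  · rw [hφ]
  · rw [hφ]

end

/-- a sequence of steps is a walk -/
theorem isWalk_range (rel : ι → Word X) (τ : (i : ι) → Fin (rel i).length) (k : ℕ) :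
    ∀ (s : ℕ → ι) (e : ℕ → Occ rel), (∀ m, (e m).1 = s (m + 1)) →
      (∀ m, letter (rel (e m).1) (e m).2 = letter (rel (s m)) (τ (s m))) →
      (∀ m, e m ≠ ⟨s m, τ (s m)⟩) → IsWalk rel τ (s 0) ((List.range k).map e) (s k) := by
  induction k with
  | zero => intro s e _ _ _; simp [IsWalk]
  | succ k ih =>
    intro s e h1 h2 h3
    rw [List.range_succ_eq_map, List.map_cons, List.map_map]
    refine ⟨h2 0, h3 0, ?_⟩
    rw [h1 0]
    exact ih (fun m => s (m + 1)) (fun m => e (m + 1)) (fun m => h1 (m + 1)) (fun m => h2 (m + 1))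
      (fun m => h3 (m + 1))

theorem aspherical_of_cheapest [Fintype ι] {Λ : Type} [AddCommGroup Λ] [LinearOrder Λ]
    [IsOrderedAddMonoid Λ] (rel : ι → Word X) (ξ : X → Λ) (hξ : ∀ i, wt ξ (rel i) = 0)
    (τ τ₁ : (i : ι) → Fin (rel i).length)
    (hinj : Function.Injective fun i => letter (rel i) (τ i))
    (hmin : ∀ τ' : (i : ι) → Fin (rel i).length,
      (Set.range fun i => letter (rel i) (τ' i)) = (Set.range fun i => letter (rel i) (τ i)) →
      cost ξ rel τ ≤ cost ξ rel τ')
    (huniq : ∀ τ' : (i : ι) → Fin (rel i).length,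
      (Set.range fun i => letter (rel i) (τ' i)) = (Set.range fun i => letter (rel i) (τ i)) →
      cost ξ rel τ' = cost ξ rel τ → ∀ i, τ' i = τ i ∨ τ' i = τ₁ i)
    (hhol : ∀ (k : ℕ) (s : ℕ → ι), 0 < k → s k = s 0 →
      (∀ m < k, letter (rel (s (m + 1))) (τ₁ (s (m + 1))) = letter (rel (s m)) (τ (s m)) ∧
        τ₁ (s (m + 1)) ≠ τ (s (m + 1))) → hol rel τ τ₁ s k ≠ 1) :
    Aspherical rel := by
  intro z hz
  by_contra hne
  obtain ⟨k, s, e, hk, hs, h1, h2, h3, hprod⟩ := exists_walk rel τ z hz hne
  have hw : IsWalk rel τ (s 0) ((List.range k).map e) (s 0) := by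
    have := isWalk_range rel τ k s e h1 h2 h3
    rwa [hs] at this
  obtain ⟨φ, hφ⟩ := exists_hom rel ξ hξ
  -- total drift vanishes
  have hφprod := congrArg φ hprod
  rw [map_one, map_list_prod, List.map_map] at hφprod
  have hsum : ((List.range k).map fun m =>
      (height ξ (rel (s m)) (τ (s m)) - height ξ (rel (e m).1) (e m).2)).sum = 0 := by
    have h4 : ((List.range k).map (φ ∘ fun m => place rel (rel (s m)) (τ (s m))
        * (place rel (rel (e m).1) (e m).2)⁻¹)) = (List.range k).map (fun m =>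
        Multiplicative.ofAdd (height ξ (rel (s m)) (τ (s m)) - height ξ (rel (e m).1) (e m).2)) := by
      apply List.map_congr_left
      intro m _
      show φ (_ * _) = _
      rw [map_mul, map_inv, hom_place rel ξ φ hφ, hom_place rel ξ φ hφ, ofAdd_sub, div_eq_mul_inv]
    rw [h4] at hφprod
    have h5 : ∀ l : List ℕ, ((l.map (fun m =>
        Multiplicative.ofAdd (height ξ (rel (s m)) (τ (s m)) - height ξ (rel (e m).1) (e m).2))).prod)
        = Multiplicative.ofAdd ((l.map (fun m =>
        (height ξ (rel (s m)) (τ (s m)) - height ξ (rel (e m).1) (e m).2))).sum) := by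
      intro l
      induction l with
      | nil => rfl
      | cons a l ih => rw [List.map_cons, List.prod_cons, ih, List.map_cons, List.sum_cons, ofAdd_add]
    rw [h5] at hφprod
    exact Multiplicative.ofAdd.injective (by rw [hφprod]; rfl)
  have hdrift : drift ξ rel τ ((List.range k).map e) = 0 := by
    have h4 : ∀ n, drift ξ rel τ ((List.range n).map e)
        = -((List.range n).map fun m =>
          (height ξ (rel (s m)) (τ (s m)) - height ξ (rel (e m).1) (e m).2)).sum
          + (height ξ (rel (s 0)) (τ (s 0)) - height ξ (rel (s n)) (τ (s n))) := by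
      intro n
      induction n with
      | zero => simp [drift]
      | succ n ih =>
        rw [List.range_succ, List.map_append, drift_append, ih, List.map_append, List.sum_append]
        simp only [List.map_cons, List.map_nil, List.sum_cons, List.sum_nil, add_zero, drift]
        have h5 : height ξ (rel (e n).1) (τ (e n).1) = height ξ (rel (s (n + 1))) (τ (s (n + 1))) := by
          rw [h1 n]
        rw [h5]; abel
    rw [h4, hsum, hs]; simp
  obtain ⟨_, hall⟩ := drift_nonneg ξ rel τ τ₁ hinj hmin huniq _ _ _ rfl hw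
  have hall' : ∀ m < k, (e m).2 = τ₁ (e m).1 := fun m hm =>
    hall hdrift (e m) (List.mem_map.2 ⟨m, List.mem_range.2 hm, rfl⟩)
  have hself : ∀ m < k, e m ≠ ⟨(e m).1, τ (e m).1⟩ := fun m hm =>
    ne_self_of_walk hinj hw (e m) (List.mem_map.2 ⟨m, List.mem_range.2 hm, rfl⟩)
  have hem : ∀ m < k, e m = ⟨s (m + 1), τ₁ (s (m + 1))⟩ := by
    intro m hm
    have h4 : e m = ⟨(e m).1, τ₁ (e m).1⟩ := by
      conv_lhs => rw [show e m = ⟨(e m).1, (e m).2⟩ from rfl]
      rw [hall' m hm]
    rw [h4, h1 m]
  apply hhol k s hk hs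
  · intro m hm
    refine ⟨?_, ?_⟩
    · have := h2 m
      rw [hem m hm] at this
      exact this
    · intro heq
      apply hself m hm
      rw [hem m hm]
      show (⟨s (m + 1), τ₁ (s (m + 1))⟩ : Occ rel) = ⟨s (m + 1), τ (s (m + 1))⟩
      rw [heq]
  · unfold hol
    rw [← hprod]
    congr 1
    apply List.map_congr_left
    intro m hm
    rw [hem m (List.mem_range.1 hm)]

/-- The ordered-action criterion. -/
theorem aspherical_of_action [Fintype ι] {Ω : Type} [LinearOrder Ω] (rel : ι → Word X)
    [MulAction (Grp rel) Ω] (hmono : ∀ (g : Grp rel) (a b : Ω), a < b → g • a < g • b)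
    (c : X → Ω) (τ τ₁ : (i : ι) → Fin (rel i).length)
    (hlow : ∀ (i j : ι) (q : Fin (rel i).length), letter (rel i) q = letter (rel j) (τ j) →
      q ≠ τ i →
      place rel (rel i) (τ i) • c (letter (rel i) (τ i)) < place rel (rel i) q • c (letter (rel i) q) ∨
      (q = τ₁ i ∧ place rel (rel i) (τ i) • c (letter (rel i) (τ i))
        = place rel (rel i) q • c (letter (rel i) q)))
    (hinj : Function.Injective fun i => letter (rel i) (τ i))
    (hhol : ∀ (k : ℕ) (s : ℕ → ι), 0 < k → s k = s 0 →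
      (∀ m < k, letter (rel (s (m + 1))) (τ₁ (s (m + 1))) = letter (rel (s m)) (τ (s m)) ∧
        τ₁ (s (m + 1)) ≠ τ (s (m + 1))) → hol rel τ τ₁ s k ≠ 1) :
    Aspherical rel := by
  intro z hz
  by_contra hne
  obtain ⟨k, s, e, hk, hs, h1, h2, h3, hprod⟩ := exists_walk rel τ z hz hne
  have hw : ∀ n, IsWalk rel τ (s 0) ((List.range n).map e) (s n) := fun n =>
    isWalk_range rel τ n s e h1 h2 h3
  have hself : ∀ m, e m ≠ ⟨(e m).1, τ (e m).1⟩ := fun m =>
    ne_self_of_walk hinj (hw (m + 1)) (e m) (List.mem_map.2 ⟨m, List.mem_range.2 (Nat.lt_succ_self m), rfl⟩)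
  have hle : ∀ (g : Grp rel) (a b : Ω), a ≤ b → g • a ≤ g • b := by
    intro g a b hab
    rcases hab.lt_or_eq with h | h
    · exact (hmono g a b h).le
    · rw [h]
  -- positions along the walk
  let P : ℕ → Grp rel := fun n => ((List.range n).map fun m =>
    place rel (rel (s m)) (τ (s m)) * (place rel (rel (e m).1) (e m).2)⁻¹).prod
  let F : ℕ → Ω := fun n => P n • (place rel (rel (s n)) (τ (s n)) • c (letter (rel (s n)) (τ (s n))))
  have hP : ∀ n, P (n + 1) = P n *
      (place rel (rel (s n)) (τ (s n)) * (place rel (rel (e n).1) (e n).2)⁻¹) := by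
    intro n
    simp only [P, List.range_succ, List.map_append, List.prod_append, List.map_cons, List.map_nil,
      List.prod_cons, List.prod_nil, mul_one]
  have hF' : ∀ n, F n = P (n + 1) • (place rel (rel (e n).1) (e n).2 •
      c (letter (rel (e n).1) (e n).2)) := by
    intro n
    show P n • (_ • _) = _
    rw [hP, h2 n, ← mul_smul, ← mul_smul]
    congr 1
    group
  have hdich : ∀ n, F (n + 1) < F n ∨ ((e n).2 = τ₁ (e n).1 ∧ F (n + 1) = F n) := by
    intro n
    have hq : (e n).2 ≠ τ (e n).1 := by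
      intro h
      apply hself n
      conv_lhs => rw [show e n = ⟨(e n).1, (e n).2⟩ from rfl]
      rw [h]
    have hFs : F (n + 1) = P (n + 1) • (place rel (rel (e n).1) (τ (e n).1) •
        c (letter (rel (e n).1) (τ (e n).1))) := by
      show P (n + 1) • (_ • _) = _
      rw [h1 n]
    rcases hlow (e n).1 (s n) (e n).2 (h2 n) hq with h | ⟨h, h'⟩
    · left
      rw [hF' n, hFs]
      exact hmono _ _ _ h
    · right
      refine ⟨h, ?_⟩
      rw [hF' n, hFs, h']
  have hanti : Antitone F := antitone_nat_of_succ_le fun n => by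
    rcases hdich n with h | ⟨_, h⟩
    · exact h.le
    · exact h.le
  have hFk : F k = F 0 := by
    have hPk : P k = 1 := hprod
    have hP0 : P 0 = 1 := rfl
    show P k • (_ • _) = P 0 • (_ • _)
    rw [hPk, hP0, hs]
  have hall' : ∀ m < k, (e m).2 = τ₁ (e m).1 := by
    intro m hm
    rcases hdich m with h | ⟨h, _⟩
    · exfalso
      have h4 : F k ≤ F (m + 1) := hanti hm
      have h5 : F m ≤ F 0 := hanti (Nat.zero_le m)
      exact absurd (lt_of_le_of_lt h4 (lt_of_lt_of_le h h5)) (by rw [hFk]; exact lt_irrefl _)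
    · exact h
  have hem : ∀ m < k, e m = ⟨s (m + 1), τ₁ (s (m + 1))⟩ := by
    intro m hm
    have h4 : e m = ⟨(e m).1, τ₁ (e m).1⟩ := by
      conv_lhs => rw [show e m = ⟨(e m).1, (e m).2⟩ from rfl]
      rw [hall' m hm]
    rw [h4, h1 m]
  apply hhol k s hk hs
  · intro m hm
    refine ⟨?_, ?_⟩
    · have := h2 m
      rw [hem m hm] at this
      exact this
    · intro heq
      apply hself m
      rw [hem m hm]
      show (⟨s (m + 1), τ₁ (s (m + 1))⟩ : Occ rel) = ⟨s (m + 1), τ (s (m + 1))⟩
      rw [heq]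
  · unfold hol
    rw [← hprod]
    congr 1
    apply List.map_congr_left
    intro m hm
    rw [hem m (List.mem_range.1 hm)]

end Pool.Agent.FoxAsph
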