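import Pool.Agent.FoxAsph.Kernel

/-!
# Closed walks in the exchange graph of a choice of places
-/

set_option autoImplicit false

open scoped BigOperators

namespace Pool.Agent.FoxAsph

variable {X ι : Type}

section
variable (rel : ι → Word X) (τ : (i : ι) → Fin (rel i).length)

/-- walks in the exchange graph -/
def IsWalk : ι → List (Occ rel) → ι → Prop
  | i, [], j => i = j
  | i, o :: l, j => letter (rel o.1) o.2 = letter (rel i) (τ i) ∧ o ≠ ⟨i, τ i⟩ ∧ IsWalk o.1 l j

/-- vertices from which the steps of a walk start -/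
def prevs : ι → List (Occ rel) → List ι
  | _, [] => []
  | i, o :: l => i :: prevs o.1 l

variable {rel τ}

theorem isWalk_append {i j : ι} {l₁ l₂ : List (Occ rel)} :
    IsWalk rel τ i (l₁ ++ l₂) j ↔ ∃ k, IsWalk rel τ i l₁ k ∧ IsWalk rel τ k l₂ j := by
  induction l₁ generalizing i with
  | nil => simp [IsWalk]
  | cons o l ih =>
    simp only [List.cons_append, IsWalk, ih]
    constructor
    · rintro ⟨h1, h2, k, h3, h4⟩; exact ⟨k, ⟨h1, h2, h3⟩, h4⟩
    · rintro ⟨k, ⟨h1, h2, h3⟩, h4⟩; exact ⟨h1, h2, k, h3, h4⟩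

theorem cons_map_fst {i j : ι} {l : List (Occ rel)} (h : IsWalk rel τ i l j) :
    i :: l.map Sigma.fst = prevs rel i l ++ [j] := by
  induction l generalizing i with
  | nil => simp only [IsWalk] at h; simp [prevs, h]
  | cons o l ih =>
    simp only [IsWalk] at h
    simp only [List.map_cons, prevs, List.cons_append]
    rw [ih h.2.2]

theorem perm_prevs {i : ι} {l : List (Occ rel)} (h : IsWalk rel τ i l i) :
    (l.map Sigma.fst).Perm (prevs rel i l) := by
  have h1 := cons_map_fst h
  have h2 : (i :: l.map Sigma.fst).Perm (i :: prevs rel i l) := by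
    rw [h1]
    exact List.perm_append_singleton _ _
  exact (List.perm_cons i).1 h2

theorem letters_prevs {i j : ι} {l : List (Occ rel)} (h : IsWalk rel τ i l j) :
    l.map (fun o => letter (rel o.1) o.2) = (prevs rel i l).map fun i => letter (rel i) (τ i) := by
  induction l generalizing i with
  | nil => rfl
  | cons o l ih =>
    simp only [IsWalk] at h
    simp only [List.map_cons, prevs]
    rw [h.1, ih h.2.2]

theorem letters_perm {i : ι} {l : List (Occ rel)} (h : IsWalk rel τ i l i) :
    (l.map (fun o => letter (rel o.1) o.2)).Perm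
      (l.map fun o => letter (rel o.1) (τ o.1)) := by
  rw [letters_prevs h]
  have := (perm_prevs h).map (fun i => letter (rel i) (τ i))
  rw [List.map_map] at this
  exact this.symm

theorem ne_self_of_walk {i j : ι} {l : List (Occ rel)}
    (hinj : Function.Injective fun i => letter (rel i) (τ i)) (h : IsWalk rel τ i l j) :
    ∀ o ∈ l, o ≠ ⟨o.1, τ o.1⟩ := by
  induction l generalizing i with
  | nil => simp
  | cons o l ih =>
    simp only [IsWalk] at h
    intro o' ho'
    rcases List.mem_cons.1 ho' with rfl | ho'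
    · intro heq
      have h1 : letter (rel o'.1) (τ o'.1) = letter (rel i) (τ i) := by
        have : letter (rel o'.1) o'.2 = letter (rel o'.1) (τ o'.1) := by
          have h2 := (Sigma.mk.inj_iff.1 (show (⟨o'.1, o'.2⟩ : Occ rel) = ⟨o'.1, τ o'.1⟩ from heq)).2
          rw [eq_of_heq h2]
        rw [← this]; exact h.1
      have h3 : o'.1 = i := hinj h1
      apply h.2.1
      rw [heq, h3]
    · exact ih h.2.2 o' ho'

theorem exists_dup {α β : Type} (f : α → β) (l : List α) (h : ¬ (l.map f).Nodup) :
    ∃ l₁ x l₂ y l₃, l = l₁ ++ x :: (l₂ ++ y :: l₃) ∧ f x = f y := by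
  classical
  induction l with
  | nil => simp at h
  | cons a l ih =>
    by_cases ha : f a ∈ l.map f
    · obtain ⟨y, hy, hfy⟩ := List.mem_map.1 ha
      obtain ⟨l₂, l₃, hl⟩ := List.append_of_mem hy
      exact ⟨[], a, l₂, y, l₃, by simp [hl], hfy.symm⟩
    · have h' : ¬ (l.map f).Nodup := by
        intro hn
        exact h (by rw [List.map_cons, List.nodup_cons]; exact ⟨ha, hn⟩)
      obtain ⟨l₁, x, l₂, y, l₃, hl, hxy⟩ := ih h'
      exact ⟨a :: l₁, x, l₂, y, l₃, by simp [hl], hxy⟩

end

section
variable {Λ : Type} [AddCommGroup Λ] (ξ : X → Λ) (rel : ι → Word X)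
  (τ : (i : ι) → Fin (rel i).length)

/-- change of cost along a closed walk -/
def drift (l : List (Occ rel)) : Λ :=
  (l.map fun o => height ξ (rel o.1) o.2 - height ξ (rel o.1) (τ o.1)).sum

theorem drift_append (l₁ l₂ : List (Occ rel)) :
    drift ξ rel τ (l₁ ++ l₂) = drift ξ rel τ l₁ + drift ξ rel τ l₂ := by
  simp [drift]

theorem drift_cons (o : Occ rel) (l : List (Occ rel)) :
    drift ξ rel τ (o :: l)
      = (height ξ (rel o.1) o.2 - height ξ (rel o.1) (τ o.1)) + drift ξ rel τ l := by
  simp [drift]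

/-- A simple closed walk gives a competitor. -/
theorem competitor [Fintype ι] {i : ι} {l : List (Occ rel)}
    (hw : IsWalk rel τ i l i) (hn : (l.map Sigma.fst).Nodup) :
    ∃ τ' : (i : ι) → Fin (rel i).length,
      (Set.range fun i => letter (rel i) (τ' i)) = (Set.range fun i => letter (rel i) (τ i)) ∧
      cost ξ rel τ' = cost ξ rel τ + drift ξ rel τ l ∧ ∀ o ∈ l, τ' o.1 = o.2 := by
  classical
  let τ' : (i : ι) → Fin (rel i).length := fun j =>
    if h : ∃ p : Fin (rel j).length, (⟨j, p⟩ : Occ rel) ∈ l then h.choose else τ j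
  have hmem : ∀ o ∈ l, τ' o.1 = o.2 := by
    intro o ho
    have h : ∃ p : Fin (rel o.1).length, (⟨o.1, p⟩ : Occ rel) ∈ l := ⟨o.2, ho⟩
    have h1 : τ' o.1 = h.choose := dif_pos h
    rw [h1]
    have h2 : (⟨o.1, h.choose⟩ : Occ rel) = o :=
      List.inj_on_of_nodup_map hn h.choose_spec ho rfl
    have h3 := (Sigma.mk.inj_iff.1 (show (⟨o.1, h.choose⟩ : Occ rel) = ⟨o.1, o.2⟩ from h2)).2
    exact eq_of_heq h3
  have hnot : ∀ j, j ∉ l.map Sigma.fst → τ' j = τ j := by
    intro j hj
    have h : ¬ ∃ p : Fin (rel j).length, (⟨j, p⟩ : Occ rel) ∈ l := by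
      rintro ⟨p, hp⟩
      exact hj (List.mem_map.2 ⟨_, hp, rfl⟩)
    exact dif_neg h
  refine ⟨τ', ?_, ?_, hmem⟩
  · ext x
    constructor
    · rintro ⟨j, rfl⟩
      by_cases hj : j ∈ l.map Sigma.fst
      · obtain ⟨o, ho, rfl⟩ := List.mem_map.1 hj
        show letter (rel o.1) (τ' o.1) ∈ _
        rw [hmem o ho]
        have h1 : letter (rel o.1) o.2 ∈ l.map fun o => letter (rel o.1) (τ o.1) :=
          (letters_perm hw).mem_iff.1 (List.mem_map.2 ⟨o, ho, rfl⟩)
        obtain ⟨o', _, ho'⟩ := List.mem_map.1 h1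
        exact ⟨o'.1, ho'⟩
      · show letter (rel j) (τ' j) ∈ _
        rw [hnot j hj]
        exact ⟨j, rfl⟩
    · rintro ⟨j, rfl⟩
      by_cases hj : j ∈ l.map Sigma.fst
      · obtain ⟨o, ho, rfl⟩ := List.mem_map.1 hj
        have h1 : letter (rel o.1) (τ o.1) ∈ l.map fun o => letter (rel o.1) o.2 :=
          (letters_perm hw).mem_iff.2 (List.mem_map.2 ⟨o, ho, rfl⟩)
        obtain ⟨o', ho'1, ho'2⟩ := List.mem_map.1 h1
        refine ⟨o'.1, ?_⟩
        show letter (rel o'.1) (τ' o'.1) = _
        rw [hmem o' ho'1]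
        exact ho'2
      · refine ⟨j, ?_⟩
        show letter (rel j) (τ' j) = _
        rw [hnot j hj]
  · have h1 : cost ξ rel τ' - cost ξ rel τ
        = ∑ j, (height ξ (rel j) (τ' j) - height ξ (rel j) (τ j)) := by
      simp [cost, Finset.sum_sub_distrib]
    have h2 : ∑ j, (height ξ (rel j) (τ' j) - height ξ (rel j) (τ j))
        = ∑ j ∈ (l.map Sigma.fst).toFinset, (height ξ (rel j) (τ' j) - height ξ (rel j) (τ j)) := by
      symm
      apply Finset.sum_subset (Finset.subset_univ _)
      intro j _ hj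
      rw [hnot j (by simpa using hj), sub_self]
    rw [List.sum_toFinset _ hn, List.map_map] at h2
    have h3 : (l.map ((fun j => height ξ (rel j) (τ' j) - height ξ (rel j) (τ j)) ∘ Sigma.fst)).sum
        = drift ξ rel τ l := by
      unfold drift
      congr 1
      apply List.map_congr_left
      intro o ho
      show height ξ (rel o.1) (τ' o.1) - _ = _
      rw [hmem o ho]
    rw [h2, h3] at h1
    rw [← h1]; abel

/-- Closed walks in the exchange graph of a cheapest choice have nonnegative drift, and those of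
zero drift use only places chosen by `τ₁`. -/
theorem drift_nonneg [Fintype ι] [LinearOrder Λ] [IsOrderedAddMonoid Λ]
    (τ₁ : (i : ι) → Fin (rel i).length)
    (hinj : Function.Injective fun i => letter (rel i) (τ i))
    (hmin : ∀ τ' : (i : ι) → Fin (rel i).length,
      (Set.range fun i => letter (rel i) (τ' i)) = (Set.range fun i => letter (rel i) (τ i)) →
      cost ξ rel τ ≤ cost ξ rel τ')
    (huniq : ∀ τ' : (i : ι) → Fin (rel i).length,
      (Set.range fun i => letter (rel i) (τ' i)) = (Set.range fun i => letter (rel i) (τ i)) →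
      cost ξ rel τ' = cost ξ rel τ → ∀ i, τ' i = τ i ∨ τ' i = τ₁ i) :
    ∀ (n : ℕ) (i : ι) (l : List (Occ rel)), l.length = n → IsWalk rel τ i l i →
      0 ≤ drift ξ rel τ l ∧ (drift ξ rel τ l = 0 → ∀ o ∈ l, o.2 = τ₁ o.1) := by
  intro n
  induction n using Nat.strong_induction_on with
  | _ n ih =>
    intro i l hl hw
    by_cases hn : (l.map Sigma.fst).Nodup
    · obtain ⟨τ', h1, h2, h3⟩ := competitor ξ rel τ hw hn
      refine ⟨?_, ?_⟩
      · have := hmin τ' h1
        rw [h2] at this
        exact nonneg_of_le_add_right this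
      · intro h0 o ho
        rw [h0, add_zero] at h2
        rcases huniq τ' h1 h2 o.1 with h | h
        · exfalso
          apply ne_self_of_walk hinj hw o ho
          rw [← h, h3 o ho]
        · rw [← h, h3 o ho]
    · obtain ⟨l₁, x, l₂, y, l₃, rfl, hxy⟩ := exists_dup Sigma.fst l hn
      -- inner closed walk
      obtain ⟨k, hw1, hw2⟩ := isWalk_append.1 hw
      simp only [IsWalk] at hw2
      obtain ⟨hx1, hx2, hw3⟩ := hw2
      obtain ⟨k', hw4, hw5⟩ := isWalk_append.1 hw3
      simp only [IsWalk] at hw5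
      obtain ⟨hy1, hy2, hw6⟩ := hw5
      have hin : IsWalk rel τ x.1 (l₂ ++ [y]) x.1 := by
        rw [isWalk_append]
        refine ⟨k', hw4, ?_⟩
        simp only [IsWalk]
        exact ⟨hy1, hy2, hxy.symm⟩
      have hout : IsWalk rel τ i (l₁ ++ x :: l₃) i := by
        rw [isWalk_append]
        refine ⟨k, hw1, ?_⟩
        simp only [IsWalk]
        refine ⟨hx1, hx2, ?_⟩
        rw [hxy]; exact hw6
      have hlen1 : (l₂ ++ [y]).length < n := by
        rw [← hl]; simp only [List.length_append, List.length_cons, List.length_nil]; omega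
      have hlen2 : (l₁ ++ x :: l₃).length < n := by
        rw [← hl]; simp only [List.length_append, List.length_cons]; omega
      obtain ⟨a1, a2⟩ := ih _ hlen1 _ _ rfl hin
      obtain ⟨b1, b2⟩ := ih _ hlen2 _ _ rfl hout
      have hsum : drift ξ rel τ (l₁ ++ x :: (l₂ ++ y :: l₃))
          = drift ξ rel τ (l₂ ++ [y]) + drift ξ rel τ (l₁ ++ x :: l₃) := by
        simp only [drift_append, drift_cons]
        have : drift ξ rel τ ([] : List (Occ rel)) = 0 := rfl
        rw [this]; abel
      refine ⟨?_, ?_⟩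
      · rw [hsum]; exact add_nonneg a1 b1
      · intro h0 o ho
        rw [hsum] at h0
        obtain ⟨c1, c2⟩ := (add_eq_zero_iff_of_nonneg a1 b1).1 h0
        have ho' : o ∈ l₂ ++ [y] ∨ o ∈ l₁ ++ x :: l₃ := by
          simp only [List.mem_append, List.mem_cons, List.not_mem_nil, or_false] at ho ⊢
          tauto
        rcases ho' with h | h
        · exact a2 c1 o h
        · exact b2 c2 o h

end

end Pool.Agent.FoxAsph
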